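import Mathlib
import Pool.Agent.TH881.RQ.Defs2

set_option autoImplicit false

namespace Pool.Agent.TH857.J3005

open Finset Filter Topology Polynomial
open Pool.Agent.TH881
open Pool.Agent.TH881.RG
open Pool.Agent.TH881.RQ
open Pool.Agent.H373R2.T7

lemma card_gd (g : ℤ[X]) (σ : ℤ) (w : ℕ) (a : ZMod (Wp w)) (s : Finset (ZMod (Wp w)))
    (hs : ∀ t, t ∈ s ↔ gd g σ w t a) : (s.card : ℝ) = Nat.totient (Wp w) := by
  classical
  rw [← card_UU]
  congr 1
  have h1 : s = (UU w).image (fun u => u - (σ : ZMod (Wp w)) * gv g w a) := by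
    ext t
    rw [hs, mem_image]
    unfold gd
    constructor
    · intro h
      exact ⟨_, mem_UU.2 h, by ring⟩
    · rintro ⟨u, hu, rfl⟩
      rw [mem_UU] at hu
      rwa [sub_add_cancel]
  rw [h1, card_image_of_injective _ (sub_left_injective)]

lemma one_mem_AA (pr : Bool) (w : ℕ) : (1 : ZMod (Wp w)) ∈ AA pr w := by
  classical
  unfold AA
  rw [mem_filter]
  exact ⟨mem_univ _, fun _ => isUnit_one⟩

lemma Vz_lim : Tendsto (fun N : ℕ => Real.log N * Vz N) atTop
    (𝓝 (Real.exp (-Real.eulerMascheroniConstant))) := by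
  refine mert'.congr fun N => ?_
  have h := Gam_mul_Vz N
  have h1 : (0 : ℝ) < Gam 1 N := lt_of_lt_of_le one_pos (one_le_Gam 1 N)
  rw [div_eq_iff h1.ne', mul_assoc, mul_comm (Vz N), h, mul_one]

lemma exp_lim : Tendsto (fun L : ℝ => Real.exp (-(2 * L / (yy L : ℝ)))) atTop (𝓝 1) := by
  have h1 : Tendsto (fun L : ℝ => 2 * L / (yy L : ℝ)) atTop (𝓝 0) := by
    have hup : Tendsto (fun L : ℝ => 2 * (1 / Real.log L)) atTop (𝓝 (2 * 0)) :=
      inv_log_small.const_mul _
    rw [mul_zero] at hup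
    apply tendsto_of_tendsto_of_tendsto_of_le_of_le' tendsto_const_nhds hup
    · filter_upwards [eventually_ge_atTop 0] with L hL
      positivity
    · filter_upwards [eventually_ge_atTop (Real.exp 1)] with L hL
      have hlog : 1 ≤ Real.log L := by
        rw [Real.le_log_iff_exp_le (lt_of_lt_of_le (Real.exp_pos 1) hL)]
        exact hL
      have hL0 : 0 < L := lt_of_lt_of_le (Real.exp_pos 1) hL
      have h2 : L * Real.log L ≤ yy L := Nat.le_ceil _
      have h3 : 0 < L * Real.log L := by positivity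
      rw [div_le_iff₀ (by linarith)]
      calc 2 * L = 2 * (1 / Real.log L) * (L * Real.log L) := by field_simp
        _ ≤ _ := mul_le_mul_of_nonneg_left h2 (by positivity)
  have h2 := (Real.continuous_exp.tendsto 0).comp (by simpa using h1.neg)
  rw [Real.exp_zero] at h2
  exact h2

lemma F_lim : Tendsto (fun L : ℝ => Real.log L * (Vz (yy L) * Real.exp (-(2 * L / (yy L : ℝ)))))
    atTop (𝓝 (Real.exp (-Real.eulerMascheroniConstant))) := by
  have h1 := ((Vz_lim.comp tendsto_yy).mul log_yy).mul exp_lim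
  rw [mul_one, mul_one] at h1
  refine h1.congr' ?_
  filter_upwards [tendsto_yy.eventually_ge_atTop 2] with L hL
  have h3 : 0 < Real.log (yy L) := Real.log_pos (by exact_mod_cast hL)
  rw [Function.comp_apply]
  field_simp

lemma MMd_nonneg (pr : Bool) (g : ℤ[X]) (K k w : ℕ) : 0 ≤ MMd (ubq pr g) K k w := by
  unfold MMd
  refine prod_nonneg fun p hp => ?_
  rw [mem_pz] at hp
  have h2 : (2 : ℝ) ≤ p := by exact_mod_cast hp.2.two_le
  have h3 : 1 ≤ (p : ℝ) / ((p : ℝ) - 1) := by
    rw [le_div_iff₀ (by linarith)]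
    linarith
  have h4 : 1 ≤ ((p : ℝ) / ((p : ℝ) - 1)) ^ k := one_le_pow₀ h3
  have h5 : 0 ≤ ubq pr g p := by
    unfold ubq
    positivity
  have h6 : 0 ≤ (K : ℝ) * ubq pr g p * (((p : ℝ) / ((p : ℝ) - 1)) ^ k - 1) :=
    mul_nonneg (mul_nonneg (Nat.cast_nonneg _) h5) (by linarith)
  linarith

theorem local_zero (pr : Bool) (g : ℤ[X]) (σ : ℤ) (hMI : StMId pr g σ) (hMB : StMBd (ubq pr g))
    (δ : ℝ) (hδ : 0 < δ) :
    ∃ β0 : ℝ, 0 < β0 ∧ ∀ β : ℝ, 0 < β → β ≤ β0 → ∀ w : ℕ, ∀ B ⊆ AA pr w,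
    β * (AA pr w).card ≤ B.card →
    Real.exp (-Real.eulerMascheroniConstant) - δ ≤
      Real.log (Real.log (1 / β)) * (((sumq g σ w B).card : ℝ) / Wp w) := by
  classical
  have hc1 : Real.exp (-Real.eulerMascheroniConstant) ≤ 1 := by
    rw [Real.exp_le_one_iff]
    have := Real.one_half_lt_eulerMascheroniConstant
    linarith
  set c := Real.exp (-Real.eulerMascheroniConstant) with hc
  have hc0 : 0 < c := Real.exp_pos _
  obtain ⟨k0, hk0⟩ := hMB 2 (δ / 2) (by positivity)
  have hev := ((F_lim.eventually (lt_mem_nhds (show c - δ / 2 < c by linarith))).and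
    ((tendsto_yy.eventually_ge_atTop k0).and ((tendsto_yy.eventually_ge_atTop 1).and
      (eventually_ge_atTop (1 : ℝ)))))
  obtain ⟨T0, hT0⟩ := Filter.eventually_atTop.1 hev
  refine ⟨Real.exp (-T0), Real.exp_pos _, fun β hβ hββ w B hB hcard => ?_⟩
  set T := Real.log (1 / β) with hT
  have hT1 : T0 ≤ T := by
    rw [hT, one_div, Real.log_inv]
    have := Real.log_le_log hβ hββ
    rw [Real.log_exp] at this
    linarith
  obtain ⟨hF, hk0', hk1, hT2⟩ := hT0 T hT1
  set k := yy T with hk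
  have hkr : (0 : ℝ) < k := by exact_mod_cast hk1
  have hlogT : 0 ≤ Real.log T := Real.log_nonneg hT2
  have hexpT : Real.exp T = 1 / β := by rw [hT, Real.exp_log (by positivity)]
  have hWr : (0 : ℝ) < Wp w := by exact_mod_cast Wp_pos w
  have hV : 0 < Vz w := Vz_pos w
  have hVk : 0 < Vz k := Vz_pos k
  have hAA : (0 : ℝ) < (AA pr w).card := by
    exact_mod_cast card_pos.2 ⟨1, one_mem_AA pr w⟩
  have hBc : (0 : ℝ) < B.card := lt_of_lt_of_le (by positivity) hcard
  set b : ZMod (Wp w) → ℝ := fun a => if a ∈ B then 1 else 0 with hb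
  have hb0 : ∀ a, 0 ≤ b a := by
    intro a
    rw [hb]
    dsimp only
    split_ifs <;> norm_num
  have hb1 : ∀ a, b a ≤ 1 := by
    intro a
    rw [hb]
    dsimp only
    split_ifs <;> norm_num
  have hbs : ∑ a ∈ AA pr w, b a = B.card := by
    rw [hb, sum_ite_mem, inter_eq_right.2 hB, sum_const, nsmul_eq_mul, mul_one]
  have hS : (B.card : ℝ) * Vz w = ∑ a ∈ AA pr w, b a * Vz w := by
    rw [← sum_mul, hbs]
  have hSp : 0 < (B.card : ℝ) * Vz w := by positivity
  have hMI' := hMI w 2 k (by norm_num) hk1 b hb0 hb1 _ hS hSp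
  set S := (B.card : ℝ) * Vz w with hSd
  -- the second factor
  have hratio : ((AA pr w).card * Vz w) / S ≤ Real.exp T := by
    rw [hSd, mul_div_mul_right _ _ hV.ne', hexpT, div_le_div_iff₀ hBc hβ, one_mul, mul_comm]
    exact hcard
  have hMM := MMd_nonneg pr g 2 k w
  have hMB' := hk0 k hk0' w
  have hfac : ((((AA pr w).card * Vz w) / S) ^ 2 * MMd (ubq pr g) 2 k w ^ (2 - 1)) ^ (1 / (k : ℝ)) ≤
      Real.exp (2 * T / k) * ((1 + δ / 2) * (Vz k)⁻¹) := by
    have h1 : (((AA pr w).card * Vz w) / S) ^ 2 ≤ Real.exp T ^ 2 :=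
      pow_le_pow_left₀ (by positivity) hratio 2
    have h2 : (2 - 1 : ℕ) = 1 := rfl
    rw [h2, pow_one]
    calc ((((AA pr w).card * Vz w) / S) ^ 2 * MMd (ubq pr g) 2 k w) ^ (1 / (k : ℝ)) ≤
        (Real.exp T ^ 2 * MMd (ubq pr g) 2 k w) ^ (1 / (k : ℝ)) := by
          apply Real.rpow_le_rpow (by positivity) _ (by positivity)
          exact mul_le_mul_of_nonneg_right h1 hMM
      _ = (Real.exp T ^ 2) ^ (1 / (k : ℝ)) * MMd (ubq pr g) 2 k w ^ (1 / (k : ℝ)) :=
          Real.mul_rpow (by positivity) hMM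
      _ = Real.exp (2 * T / k) * MMd (ubq pr g) 2 k w ^ (1 / (k : ℝ)) := by
          congr 1
          rw [← Real.exp_nat_mul, ← Real.exp_mul]
          congr 1
          push_cast
          ring
      _ ≤ _ := mul_le_mul_of_nonneg_left hMB' (Real.exp_pos _).le
  set E := Real.exp (2 * T / k) * ((1 + δ / 2) * (Vz k)⁻¹) with hE
  have hE0 : 0 < E := by positivity
  -- the first moment
  have hsum : ∑ t, rrd pr g σ w b t = S * Wp w := by
    unfold rrd
    rw [sum_comm]
    have h1 : ∀ a ∈ AA pr w, ∑ t : ZMod (Wp w), (if gd g σ w t a then b a else 0) =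
        (Nat.totient (Wp w) : ℝ) * b a := by
      intro a _
      rw [← sum_filter, sum_const, nsmul_eq_mul, card_gd g σ w a _ (fun t => by simp)]
    rw [sum_congr rfl h1, ← mul_sum, hbs, totient_Wp, hSd]
    ring
  have hzero : ∀ t, t ∉ sumq g σ w B → rrd pr g σ w b t = 0 := by
    intro t ht
    unfold rrd
    refine sum_eq_zero fun a _ => ?_
    split_ifs with h1
    · rw [hb]
      dsimp only
      rw [if_neg]
      intro h2
      apply ht
      unfold sumq
      rw [mem_filter]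
      exact ⟨mem_univ _, a, h2, h1⟩
    · rfl
  have hCS : (∑ t, rrd pr g σ w b t) ^ 2 ≤
      ((sumq g σ w B).card : ℝ) * ∑ t, rrd pr g σ w b t ^ 2 := by
    have h1 : ∑ t ∈ sumq g σ w B, rrd pr g σ w b t = ∑ t, rrd pr g σ w b t :=
      sum_subset (subset_univ _) fun t _ ht => hzero t ht
    rw [← h1]
    refine (sq_sum_le_card_mul_sum_sq).trans ?_
    apply mul_le_mul_of_nonneg_left _ (Nat.cast_nonneg _)
    exact sum_le_sum_of_subset_of_nonneg (subset_univ _) (fun t _ _ => sq_nonneg _)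
  have hM2 : ∑ t, rrd pr g σ w b t ^ 2 ≤ S ^ 2 * E * Wp w := by
    rw [div_le_iff₀ hWr] at hMI'
    refine hMI'.trans ?_
    apply mul_le_mul_of_nonneg_right _ hWr.le
    exact mul_le_mul_of_nonneg_left hfac (by positivity)
  have hmain : (Wp w : ℝ) ≤ ((sumq g σ w B).card : ℝ) * E := by
    have h1 : (S * Wp w) ^ 2 ≤ ((sumq g σ w B).card : ℝ) * (S ^ 2 * E * Wp w) := by
      rw [← hsum]
      exact hCS.trans (mul_le_mul_of_nonneg_left hM2 (Nat.cast_nonneg _))
    have h2 : (S ^ 2 * Wp w) * Wp w ≤ (S ^ 2 * Wp w) * (((sumq g σ w B).card : ℝ) * E) := by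
      calc (S ^ 2 * Wp w) * Wp w = (S * Wp w) ^ 2 := by ring
        _ ≤ _ := h1
        _ = _ := by ring
    exact le_of_mul_le_mul_left h2 (by positivity)
  have hfin : 1 / E ≤ ((sumq g σ w B).card : ℝ) / Wp w := by
    rw [div_le_div_iff₀ hE0 hWr, one_mul]
    exact hmain
  have hEinv : 1 / E = (Vz k * Real.exp (-(2 * T / (k : ℝ)))) / (1 + δ / 2) := by
    rw [hE, Real.exp_neg]
    field_simp
  have h9 : (c - δ / 2) / (1 + δ / 2) ≤
      Real.log T * (((sumq g σ w B).card : ℝ) / Wp w) := by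
    calc (c - δ / 2) / (1 + δ / 2) ≤
        (Real.log T * (Vz k * Real.exp (-(2 * T / (k : ℝ))))) / (1 + δ / 2) :=
          div_le_div_of_nonneg_right hF.le (by positivity)
      _ = Real.log T * (1 / E) := by rw [hEinv]; ring
      _ ≤ _ := mul_le_mul_of_nonneg_left hfin hlogT
  refine le_trans ?_ h9
  rw [le_div_iff₀ (by positivity)]
  nlinarith

theorem floc_zero_upper (pr : Bool) (g : ℤ[X]) (σ : ℤ) (hσ : σ = 1 ∨ σ = -1) (δ : ℝ) (hδ : 0 < δ) :
    ∃ β0 : ℝ, 0 < β0 ∧ ∀ β : ℝ, 0 < β → β ≤ β0 →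
    Real.log (Real.log (1 / β)) * Flocq pr g σ β ≤ Real.exp (-Real.eulerMascheroniConstant) + δ := by
  classical
  set c := Real.exp (-Real.eulerMascheroniConstant) with hc
  have hH : Tendsto (fun v : ℕ => (Real.log 4 + Real.log v) * Vz v) atTop (𝓝 c) := by
    have h1 : Tendsto (fun v : ℕ => (Real.log (v : ℝ))⁻¹) atTop (𝓝 0) :=
      (Real.tendsto_log_atTop.comp tendsto_natCast_atTop_atTop).inv_tendsto_atTop
    have h2 := ((Vz_lim.mul h1).const_mul (Real.log 4)).add Vz_lim
    rw [mul_zero, mul_zero, zero_add] at h2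
    refine h2.congr' ?_
    filter_upwards [eventually_ge_atTop 2] with v hv
    have h3 : 0 < Real.log (v : ℝ) := Real.log_pos (by exact_mod_cast hv)
    field_simp
  have hlog4 : 0 < Real.log 4 := Real.log_pos (by norm_num)
  have hlog4' : Real.log 4 ≤ 2 := by
    have h5 : Real.log 4 = 2 * Real.log 2 := by
      rw [show (4 : ℝ) = 2 ^ 2 by norm_num, Real.log_pow]
      norm_num
    have := Real.log_two_lt_d9
    linarith
  have hfl : Tendsto (fun T : ℝ => ⌊T / Real.log 4⌋₊) atTop atTop :=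
    tendsto_nat_floor_atTop.comp (tendsto_id.atTop_div_const hlog4)
  have hev := ((hfl.eventually (hH.eventually (gt_mem_nhds (show c < c + δ by linarith)))).and
    ((hfl.eventually_ge_atTop 1).and (eventually_ge_atTop (1 : ℝ))))
  obtain ⟨T0, hT0⟩ := Filter.eventually_atTop.1 hev
  refine ⟨Real.exp (-T0), Real.exp_pos _, fun β hβ hββ => ?_⟩
  set T := Real.log (1 / β) with hT
  have hT1 : T0 ≤ T := by
    rw [hT, one_div, Real.log_inv]
    have := Real.log_le_log hβ hββ
    rw [Real.log_exp] at this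
    linarith
  obtain ⟨h1, h2, h3⟩ := hT0 T hT1
  set w := ⌊T / Real.log 4⌋₊ with hw
  have hexpT : Real.exp T = 1 / β := by rw [hT, Real.exp_log (by positivity)]
  have hwT : (w : ℝ) * Real.log 4 ≤ T := by
    rw [← le_div_iff₀ hlog4]
    exact Nat.floor_le (by positivity)
  have hwT2 : T < ((w : ℝ) + 1) * Real.log 4 := by
    rw [← div_lt_iff₀ hlog4]
    exact Nat.lt_floor_add_one _
  have hw1 : (1 : ℝ) ≤ w := by exact_mod_cast h2
  have hT4 : T ≤ 4 * w := by nlinarith
  have hlogT : Real.log T ≤ Real.log 4 + Real.log w := by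
    rw [← Real.log_mul (by norm_num) (by positivity)]
    exact Real.log_le_log (by linarith) hT4
  have hlogT0 : 0 ≤ Real.log T := Real.log_nonneg h3
  have hWr : (0 : ℝ) < Wp w := by exact_mod_cast Wp_pos w
  have hV : 0 < Vz w := Vz_pos w
  have hWβ : (Wp w : ℝ) ≤ 1 / β := by
    have h4 : (Wp w : ℝ) ≤ 4 ^ w := by exact_mod_cast Wp_le w
    refine h4.trans ?_
    rw [← hexpT]
    calc (4 : ℝ) ^ w = Real.exp (w * Real.log 4) := by
          rw [Real.exp_nat_mul, Real.exp_log (by norm_num)]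
      _ ≤ Real.exp T := Real.exp_le_exp.2 hwT
  have hFl : Flocq pr g σ β ≤ Vz w := by
    unfold Flocq
    apply csInf_le
    · refine ⟨0, ?_⟩
      rintro _ ⟨w', B, _, _, rfl⟩
      positivity
    · refine ⟨w, {1}, ?_, ?_, ?_⟩
      · rw [singleton_subset_iff]
        exact one_mem_AA pr w
      · have h5 : ((AA pr w).card : ℝ) ≤ Wp w := by
          have h6 := card_le_univ (AA pr w)
          rw [ZMod.card] at h6
          exact_mod_cast h6
        rw [card_singleton, Nat.cast_one]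
        calc β * (AA pr w).card ≤ β * (1 / β) :=
              mul_le_mul_of_nonneg_left (h5.trans hWβ) hβ.le
          _ = 1 := by field_simp
      · rw [card_gd g σ w 1 (sumq g σ w {1}) (fun t => by
          unfold sumq
          rw [mem_filter]
          simp), totient_Wp]
        field_simp
  calc Real.log T * Flocq pr g σ β ≤ Real.log T * Vz w := mul_le_mul_of_nonneg_left hFl hlogT0
    _ ≤ (Real.log 4 + Real.log w) * Vz w := mul_le_mul_of_nonneg_right hlogT hV.le
    _ ≤ c + δ := h1.le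

end Pool.Agent.TH857.J3005
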