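import Mathlib

open Set Metric MeasureTheory Topology Filter
open scoped RealInnerProductSpace

namespace Pool.Agent.TH857.EucFin

/-- `t ↦ |t|^p` is not real analytic at `0` unless `p` is an even integer. -/
lemma not_analyticAt_abs_rpow (p : ℝ) (hpe : ∀ k : ℕ, p ≠ 2 * k) :
    ¬ AnalyticAt ℝ (fun t : ℝ => |t| ^ p) 0 := by
  intro h
  have hne : ¬ ∀ᶠ z in 𝓝 (0 : ℝ), |z| ^ p = 0 := by
    intro h0
    have h1 : ∀ᶠ z in 𝓝[>] (0 : ℝ), |z| ^ p = 0 := h0.filter_mono nhdsWithin_le_nhds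
    have h2 : ∀ᶠ z in 𝓝[>] (0 : ℝ), z ∈ Ioi (0 : ℝ) := self_mem_nhdsWithin
    obtain ⟨z, hz1, hz2⟩ := (h1.and h2).exists
    have : 0 < |z| ^ p := Real.rpow_pos_of_pos (abs_pos.mpr (ne_of_gt hz2)) p
    linarith
  obtain ⟨n, g, hg, hg0, hfg⟩ := h.exists_eventuallyEq_pow_smul_nonzero_iff.mpr hne
  have hgc : Tendsto g (𝓝 0) (𝓝 (g 0)) := hg.continuousAt.tendsto
  have hgr : Tendsto g (𝓝[>] 0) (𝓝 (g 0)) := hgc.mono_left nhdsWithin_le_nhds
  have hgl : Tendsto g (𝓝[<] 0) (𝓝 (g 0)) := hgc.mono_left nhdsWithin_le_nhds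
  have hpos : ∀ᶠ z in 𝓝[>] (0 : ℝ), z ∈ Ioi (0 : ℝ) := self_mem_nhdsWithin
  have hneg : ∀ᶠ z in 𝓝[<] (0 : ℝ), z ∈ Iio (0 : ℝ) := self_mem_nhdsWithin
  have hr : ∀ᶠ z in 𝓝[>] (0 : ℝ), z ^ p = z ^ n * g z := by
    filter_upwards [hfg.filter_mono nhdsWithin_le_nhds, hpos] with z h1 h2
    rw [sub_zero, smul_eq_mul, abs_of_pos h2] at h1
    exact h1
  have hl : ∀ᶠ z in 𝓝[<] (0 : ℝ), (-z) ^ p = z ^ n * g z := by
    filter_upwards [hfg.filter_mono nhdsWithin_le_nhds, hneg] with z h1 h2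
    rw [sub_zero, smul_eq_mul, abs_of_neg h2] at h1
    exact h1
  rcases lt_trichotomy p n with hpn | hpn | hpn
  · -- `p < n`
    have h1 : ∀ᶠ z in 𝓝[>] (0 : ℝ), z ^ ((n : ℝ) - p) * g z = 1 := by
      filter_upwards [hr, hpos] with z hz hz0
      have hz0' : (0 : ℝ) < z := hz0
      rw [Real.rpow_sub hz0', Real.rpow_natCast, div_mul_eq_mul_div, ← hz, div_self]
      exact (Real.rpow_pos_of_pos hz0' p).ne'
    have h2 : Tendsto (fun z : ℝ => z ^ ((n : ℝ) - p) * g z) (𝓝[>] 0) (𝓝 (0 * g 0)) := by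
      refine Tendsto.mul ?_ hgr
      have : Tendsto (fun z : ℝ => z ^ ((n : ℝ) - p)) (𝓝 0) (𝓝 (0 ^ ((n : ℝ) - p))) :=
        (Real.continuousAt_rpow_const 0 _ (Or.inr (by linarith))).tendsto
      rw [Real.zero_rpow (by linarith : (n : ℝ) - p ≠ 0)] at this
      exact this.mono_left nhdsWithin_le_nhds
    have h3 : Tendsto (fun z : ℝ => z ^ ((n : ℝ) - p) * g z) (𝓝[>] 0) (𝓝 1) :=
      tendsto_const_nhds.congr' (by filter_upwards [h1] with z hz using hz.symm)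
    have := tendsto_nhds_unique h2 h3
    norm_num at this
  · -- `p = n`
    have h1 : ∀ᶠ z in 𝓝[>] (0 : ℝ), g z = 1 := by
      filter_upwards [hr, hpos] with z hz hz0
      have hz0' : (0 : ℝ) < z := hz0
      rw [hpn, Real.rpow_natCast] at hz
      have hzn : z ^ n ≠ 0 := (pow_pos hz0' n).ne'
      have : z ^ n * g z = z ^ n * 1 := by rw [mul_one]; exact hz.symm
      exact mul_left_cancel₀ hzn this
    have h2 : ∀ᶠ z in 𝓝[<] (0 : ℝ), g z = (-1) ^ n := by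
      filter_upwards [hl, hneg] with z hz hz0
      have hz0' : z < (0 : ℝ) := hz0
      rw [hpn, Real.rpow_natCast, neg_pow] at hz
      have hzn : z ^ n ≠ 0 := pow_ne_zero n hz0'.ne
      have : z ^ n * g z = z ^ n * (-1) ^ n := by rw [← hz]; ring
      exact mul_left_cancel₀ hzn this
    have e1 : g 0 = 1 := tendsto_nhds_unique hgr
      (tendsto_const_nhds.congr' (by filter_upwards [h1] with z hz using hz.symm))
    have e2 : g 0 = (-1) ^ n := tendsto_nhds_unique hgl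
      (tendsto_const_nhds.congr' (by filter_upwards [h2] with z hz using hz.symm))
    rcases Nat.even_or_odd n with he | ho
    · obtain ⟨k, hk⟩ := he
      apply hpe k
      rw [hpn, hk]; push_cast; ring
    · rw [ho.neg_one_pow, e1] at e2
      norm_num at e2
  · -- `n < p`
    have h1 : ∀ᶠ z in 𝓝[>] (0 : ℝ), z ^ (p - (n : ℝ)) = g z := by
      filter_upwards [hr, hpos] with z hz hz0
      have hz0' : (0 : ℝ) < z := hz0
      rw [Real.rpow_sub hz0', Real.rpow_natCast, hz, mul_comm, mul_div_assoc, div_self, mul_one]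
      exact (pow_pos hz0' n).ne'
    have h2 : Tendsto (fun z : ℝ => z ^ (p - (n : ℝ))) (𝓝[>] 0) (𝓝 0) := by
      have : Tendsto (fun z : ℝ => z ^ (p - (n : ℝ))) (𝓝 0) (𝓝 (0 ^ (p - (n : ℝ)))) :=
        (Real.continuousAt_rpow_const 0 _ (Or.inr (by linarith))).tendsto
      rw [Real.zero_rpow (by linarith : p - (n : ℝ) ≠ 0)] at this
      exact this.mono_left nhdsWithin_le_nhds
    exact hg0 (tendsto_nhds_unique hgr (h2.congr' h1))

/-- `t ↦ |a + t b|^p` is real analytic at `0` when `a ≠ 0`. -/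
lemma analyticAt_abs_affine_rpow (p a b : ℝ) (ha : a ≠ 0) :
    AnalyticAt ℝ (fun t : ℝ => |a + t * b| ^ p) 0 := by
  have hpos : 0 < |a| := abs_pos.mpr ha
  set s : ℝ := ((SignType.sign a : SignType) : ℝ) with hs
  have hsa : s * a = |a| := by rw [hs]; exact sign_mul_self a
  -- near `0`, `|a + t b| = s * (a + t b)`
  have hev : ∀ᶠ t in 𝓝 (0 : ℝ), 0 < s * (a + t * b) := by
    have hc : ContinuousAt (fun t : ℝ => s * (a + t * b)) 0 := by fun_prop
    have h0 : 0 < s * (a + 0 * b) := by rw [zero_mul, add_zero, hsa]; exact hpos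
    exact hc.eventually (lt_mem_nhds h0)
  have hs1 : |s| = 1 := by
    rcases lt_or_gt_of_ne ha with h | h
    · rw [hs, sign_neg h]; simp
    · rw [hs, sign_pos h]; simp
  have heq : (fun t : ℝ => |a + t * b| ^ p) =ᶠ[𝓝 0]
      fun t => Real.exp (Real.log (s * (a + t * b)) * p) := by
    filter_upwards [hev] with t ht
    have h1 : |a + t * b| = s * (a + t * b) := by
      have : |s * (a + t * b)| = s * (a + t * b) := abs_of_pos ht
      rw [abs_mul, hs1, one_mul] at this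
      exact this
    rw [h1, Real.rpow_def_of_pos ht]
  refine AnalyticAt.congr ?_ heq.symm
  have hA : AnalyticAt ℝ (fun t : ℝ => s * (a + t * b)) 0 := by fun_prop
  have h0 : 0 < s * (a + 0 * b) := by rw [zero_mul, add_zero, hsa]; exact hpos
  have hL : AnalyticAt ℝ (fun t : ℝ => Real.log (s * (a + t * b))) 0 :=
    hA.log h0
  exact (hL.mul analyticAt_const).rexp'

variable {E : Type*} [NormedAddCommGroup E] [InnerProductSpace ℝ E]

/-- A vector orthogonal to `v0` but to no other vector of a finite set not parallel to `v0`. -/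
lemma exists_orth (R : Finset E) (v0 : E)
    (hR : ∀ v ∈ R, ∀ c : ℝ, v ≠ c • v0) :
    ∃ r : E, ⟪r, v0⟫ = 0 ∧ ∀ v ∈ R, ⟪r, v⟫ ≠ 0 := by
  classical
  let K : Submodule ℝ E := (ℝ ∙ v0)ᗮ
  let S : Finset (Subspace ℝ K) := R.image (fun v => ((ℝ ∙ v)ᗮ).comap K.subtype)
  have hS : ⊤ ∉ S := by
    intro hmem
    obtain ⟨v, hv, hvt⟩ := Finset.mem_image.mp hmem
    -- every vector orthogonal to `v0` is orthogonal to `v`
    have h1 : K ≤ (ℝ ∙ v)ᗮ := by
      intro x hx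
      have : (⟨x, hx⟩ : K) ∈ ((ℝ ∙ v)ᗮ).comap K.subtype := by rw [hvt]; trivial
      exact this
    have h2 : v ∈ Kᗮ := by
      rw [Submodule.mem_orthogonal]
      intro u hu
      have := h1 hu
      rw [Submodule.mem_orthogonal_singleton_iff_inner_left] at this
      exact this
    have h3 : Kᗮ = (ℝ ∙ v0) := by
      exact Submodule.orthogonal_orthogonal _
    rw [h3, Submodule.mem_span_singleton] at h2
    obtain ⟨c, hc⟩ := h2
    exact hR v hv c hc.symm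
  have hne := Subspace.biUnion_ne_univ_of_top_notMem hS
  obtain ⟨x, hx⟩ := (Set.ne_univ_iff_exists_notMem _).mp hne
  refine ⟨x, ?_, ?_⟩
  · have := x.2
    rw [Submodule.mem_orthogonal_singleton_iff_inner_left] at this
    exact this
  · intro v hv h0
    apply hx
    simp only [Set.mem_iUnion]
    refine ⟨((ℝ ∙ v)ᗮ).comap K.subtype, Finset.mem_image_of_mem _ hv, ?_⟩
    show (x : E) ∈ (ℝ ∙ v)ᗮ
    rw [Submodule.mem_orthogonal_singleton_iff_inner_left]
    exact h0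

/-- Linear independence of the functions `r ↦ |⟪r, v⟫|^p`. -/
lemma abs_inner_rpow_indep (p : ℝ) (hpe : ∀ k : ℕ, p ≠ 2 * k)
    (R : Finset E) (hR0 : ∀ v ∈ R, v ≠ 0)
    (hpar : ∀ v ∈ R, ∀ w ∈ R, v ≠ w → ∀ c : ℝ, v ≠ c • w)
    (c : E → ℝ) (h : ∀ r : E, ∑ v ∈ R, c v * |⟪r, v⟫| ^ p = 0) :
    ∀ v ∈ R, c v = 0 := by
  classical
  intro v0 hv0
  by_contra hc
  obtain ⟨r0, hr0, hr⟩ := exists_orth (R.erase v0) v0 (by
    intro v hv cc
    exact hpar v (Finset.mem_of_mem_erase hv) v0 hv0 (Finset.ne_of_mem_erase hv) cc)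
  have hvv : 0 < ⟪v0, v0⟫ := by
    rw [real_inner_self_eq_norm_sq]; have := norm_pos_iff.mpr (hR0 v0 hv0); positivity
  -- along the line `r0 + t v0`
  have hline : ∀ t : ℝ, |t| ^ p = -(1 / (c v0 * ⟪v0, v0⟫ ^ p)) *
      ∑ v ∈ R.erase v0, c v * |⟪r0, v⟫ + t * ⟪v0, v⟫| ^ p := by
    intro t
    have h1 := h (r0 + t • v0)
    rw [← Finset.add_sum_erase _ _ hv0] at h1
    have h2 : |⟪r0 + t • v0, v0⟫| ^ p = |t| ^ p * ⟪v0, v0⟫ ^ p := by
      rw [inner_add_left, hr0, zero_add, real_inner_smul_left, abs_mul, abs_of_pos hvv,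
        Real.mul_rpow (abs_nonneg _) hvv.le]
    have h3 : ∀ v, ⟪r0 + t • v0, v⟫ = ⟪r0, v⟫ + t * ⟪v0, v⟫ := by
      intro v; rw [inner_add_left, real_inner_smul_left]
    rw [h2] at h1
    simp only [h3] at h1
    have hpp : 0 < ⟪v0, v0⟫ ^ p := Real.rpow_pos_of_pos hvv p
    have hne : c v0 * ⟪v0, v0⟫ ^ p ≠ 0 := mul_ne_zero hc hpp.ne'
    field_simp
    linarith
  apply not_analyticAt_abs_rpow p hpe
  have : (fun t : ℝ => |t| ^ p) = fun t : ℝ => -(1 / (c v0 * ⟪v0, v0⟫ ^ p)) *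
      ∑ v ∈ R.erase v0, c v * |⟪r0, v⟫ + t * ⟪v0, v⟫| ^ p := funext hline
  rw [this]
  refine analyticAt_const.mul ?_
  refine Finset.analyticAt_fun_sum _ ?_
  intro v hv
  exact analyticAt_const.mul (analyticAt_abs_affine_rpow p _ _ (hr v hv))

end Pool.Agent.TH857.EucFin
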