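import Mathlib

open Set Metric MeasureTheory Topology Filter
open scoped RealInnerProductSpace

namespace Pool.Agent.TH857.EucFin

/-- On an arithmetic progression a function with vanishing `m`-th difference is polynomial. -/
lemma poly_of_fwdDiff (φ : ℝ → ℝ) (m : ℕ) (h y : ℝ) (hφ : (fwdDiff h)^[m] φ = 0) :
    ∃ Q : Polynomial ℝ, ∀ n : ℕ, φ (y + n * h) = Q.eval (n : ℝ) := by
  have hk : ∀ k, m ≤ k → (fwdDiff h)^[k] φ = 0 := by
    intro k hk
    obtain ⟨d, rfl⟩ := Nat.exists_eq_add_of_le hk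
    rw [add_comm, Function.iterate_add_apply, hφ]
    induction d with
    | zero => rfl
    | succ d ih =>
      have h1 := ih (Nat.le_add_right _ _)
      rw [Function.iterate_succ_apply', h1]
      funext x
      simp [fwdDiff]
  refine ⟨∑ k ∈ Finset.range m, Polynomial.C (((fwdDiff h)^[k] φ y) / (k.factorial : ℝ)) *
    descPochhammer ℝ k, fun n => ?_⟩
  have h1 := shift_eq_sum_fwdDiff_iter h φ n y
  rw [nsmul_eq_mul] at h1
  rw [h1, Polynomial.eval_finsetSum]
  have h2 : ∀ k, Polynomial.eval (n : ℝ) (Polynomial.C (((fwdDiff h)^[k] φ y) / (k.factorial : ℝ)) *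
      descPochhammer ℝ k) = n.choose k • (fwdDiff h)^[k] φ y := by
    intro k
    rw [Polynomial.eval_mul, Polynomial.eval_C, nsmul_eq_mul,
      Nat.cast_choose_eq_descPochhammer_div ℝ n k]
    ring
  simp only [h2]
  -- compare the two ranges
  have e1 : ∑ k ∈ Finset.range (n + 1), n.choose k • (fwdDiff h)^[k] φ y =
      ∑ k ∈ Finset.range (n + 1 + m), n.choose k • (fwdDiff h)^[k] φ y := by
    refine Finset.sum_subset (Finset.range_mono (by omega)) ?_
    intro k _ hk2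
    rw [Finset.mem_range, not_lt] at hk2
    rw [Nat.choose_eq_zero_of_lt (by omega), zero_smul]
  have e2 : ∑ k ∈ Finset.range m, n.choose k • (fwdDiff h)^[k] φ y =
      ∑ k ∈ Finset.range (n + 1 + m), n.choose k • (fwdDiff h)^[k] φ y := by
    refine Finset.sum_subset (Finset.range_mono (by omega)) ?_
    intro k _ hk2
    rw [Finset.mem_range, not_lt] at hk2
    rw [hk k hk2]
    simp
  rw [e1, e2]

/-- Fréchet's theorem for continuous functions of one real variable. -/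
theorem frechet (φ : ℝ → ℝ) (hc : Continuous φ) (m : ℕ)
    (hφ : ∀ h : ℝ, (fwdDiff h)^[m] φ = 0) :
    ∃ P : Polynomial ℝ, ∀ t, φ t = P.eval t := by
  obtain ⟨P, hP⟩ := poly_of_fwdDiff φ m 1 0 (hφ 1)
  simp only [zero_add, mul_one] at hP
  refine ⟨P, ?_⟩
  have key : ∀ (k M n : ℕ), φ (-(M : ℝ) + n * (1 / (k + 1))) =
      P.eval (-(M : ℝ) + n * (1 / (k + 1))) := by
    intro k M n
    obtain ⟨Q, hQ⟩ := poly_of_fwdDiff φ m (1 / (k + 1)) (-(M : ℝ)) (hφ _)
    set P' : Polynomial ℝ := Q.comp (Polynomial.C ((k : ℝ) + 1) * (Polynomial.X +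
      Polynomial.C (M : ℝ))) with hP'
    have hk : (k : ℝ) + 1 ≠ 0 := by positivity
    have hev : ∀ t : ℝ, P'.eval t = Q.eval (((k : ℝ) + 1) * (t + M)) := by
      intro t
      rw [hP', Polynomial.eval_comp]
      simp
    have heq : P = P' := by
      refine Polynomial.eq_of_infinite_eval_eq _ _ ?_
      refine Set.Infinite.mono ?_ (Set.infinite_range_of_injective (Nat.cast_injective (R := ℝ)))
      rintro _ ⟨l, rfl⟩
      show Polynomial.eval (l : ℝ) P = Polynomial.eval (l : ℝ) P'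
      rw [hev, ← hP l]
      have h1 := hQ ((k + 1) * (l + M))
      push_cast at h1
      rw [← h1]
      congr 1
      field_simp
      ring
    rw [hQ n, heq, hev]
    congr 1
    field_simp
    ring
  -- density
  intro t
  have hcl : IsClosed {s : ℝ | φ s = P.eval s} := isClosed_eq hc P.continuous
  have hmem : t ∈ closure {s : ℝ | φ s = P.eval s} := by
    rw [Metric.mem_closure_iff]
    intro ε hε
    obtain ⟨M, hM⟩ := exists_nat_ge |t|
    obtain ⟨k, hk⟩ := exists_nat_one_div_lt hε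
    have hk1 : (0 : ℝ) < (k : ℝ) + 1 := by positivity
    have ht : 0 ≤ (t + M) * (k + 1) := by
      have := neg_abs_le t
      exact mul_nonneg (by linarith) hk1.le
    refine ⟨-(M : ℝ) + ⌊(t + M) * (k + 1)⌋₊ * (1 / (k + 1)), key k M _, ?_⟩
    have h1 := Nat.floor_le ht
    have h2 := Nat.lt_floor_add_one ((t + M) * (k + 1))
    rw [Real.dist_eq]
    have h3 : t - (-(M : ℝ) + ⌊(t + M) * (k + 1)⌋₊ * (1 / (k + 1))) =
        ((t + M) * (k + 1) - ⌊(t + M) * (k + 1)⌋₊) * (1 / (k + 1)) := by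
      field_simp
      ring
    rw [h3, abs_mul, abs_of_nonneg (by linarith), abs_of_pos (by positivity)]
    calc ((t + M) * (k + 1) - ⌊(t + M) * (k + 1)⌋₊) * (1 / (k + 1))
        ≤ 1 * (1 / (k + 1)) := by
          apply mul_le_mul_of_nonneg_right (by linarith) (by positivity)
      _ < ε := by rw [one_mul]; exact hk
  rw [hcl.closure_eq] at hmem
  exact hmem

variable {E : Type*} [NormedAddCommGroup E] [InnerProductSpace ℝ E]

lemma ridge (v0 : E) (hv0 : v0 ≠ 0) (S : Finset E)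
    (hS : ∀ v ∈ S, ∃ w : E, ⟪w, v⟫ = 0 ∧ ⟪w, v0⟫ = 1) :
    ∀ (φ : ℝ → ℝ) (ψ : E → ℝ → ℝ), (∀ r : E, φ ⟪r, v0⟫ + ∑ v ∈ S, ψ v ⟪r, v⟫ = 0) →
      ∀ h : ℝ, (fwdDiff h)^[S.card] φ = 0 := by
  classical
  induction S using Finset.induction_on with
  | empty =>
    intro φ ψ h0 h
    funext s
    simp only [Finset.card_empty, Function.iterate_zero, id_eq, Pi.zero_apply]
    have hvv : ⟪v0, v0⟫ ≠ 0 := inner_self_ne_zero.mpr hv0
    have := h0 ((s / ⟪v0, v0⟫) • v0)
    rw [real_inner_smul_left, div_mul_cancel₀ _ hvv] at this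
    simpa using this
  | insert v S hvS ih =>
    intro φ ψ h0 h
    obtain ⟨w, hw0, hw1⟩ := hS v (Finset.mem_insert_self _ _)
    have hS' : ∀ v ∈ S, ∃ w : E, ⟪w, v⟫ = 0 ∧ ⟪w, v0⟫ = 1 :=
      fun u hu => hS u (Finset.mem_insert_of_mem hu)
    have h1 := ih hS' (fwdDiff h φ) (fun u => fwdDiff (h * ⟪w, u⟫) (ψ u)) (by
      intro r
      have e1 := h0 (r + h • w)
      have e2 := h0 r
      rw [Finset.sum_insert hvS] at e1 e2
      simp only [inner_add_left, real_inner_smul_left, hw0, hw1, mul_one, mul_zero,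
        add_zero] at e1
      simp only [fwdDiff, Finset.sum_sub_distrib]
      linarith) h
    rw [Finset.card_insert_of_notMem hvS, Function.iterate_succ_apply]
    exact h1

lemma exists_w (v v0 : E) (hv : v ≠ 0) (hpar : ∀ c : ℝ, v0 ≠ c • v) :
    ∃ w : E, ⟪w, v⟫ = 0 ∧ ⟪w, v0⟫ = 1 := by
  have hvv : ⟪v, v⟫ ≠ 0 := inner_self_ne_zero.mpr hv
  set w := v0 - (⟪v0, v⟫ / ⟪v, v⟫) • v with hw
  have h1 : ⟪w, v⟫ = 0 := by
    rw [hw, inner_sub_left, real_inner_smul_left, div_mul_cancel₀ _ hvv, sub_self]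
  have hw0 : w ≠ 0 := by
    intro h0
    exact hpar _ (sub_eq_zero.mp h0)
  have h2 : ⟪w, v0⟫ = ⟪w, w⟫ := by
    have : v0 = w + (⟪v0, v⟫ / ⟪v, v⟫) • v := by rw [hw]; abel
    conv_lhs => rw [this]
    rw [inner_add_right, real_inner_smul_right, h1, mul_zero, add_zero]
  have hww : ⟪w, w⟫ ≠ 0 := inner_self_ne_zero.mpr hw0
  refine ⟨(1 / ⟪w, w⟫) • w, ?_, ?_⟩
  · rw [real_inner_smul_left, h1, mul_zero]
  · rw [real_inner_smul_left, h2, one_div, inv_mul_cancel₀ hww]

/-- A function of two real variables, homogeneous of degree `p`, not polynomial on a line. -/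
structure Md (p : ℝ) (h : ℝ → ℝ → ℝ) : Prop where
  cont : Continuous (fun z : ℝ × ℝ => h z.1 z.2)
  nonneg : ∀ s t, 0 ≤ h s t
  hom : ∀ c s t : ℝ, 0 ≤ c → h (c * s) (c * t) = c ^ p * h s t
  notPoly : ∀ P : Polynomial ℝ, ∃ t, h 1 t ≠ P.eval t

/-- Linear independence. -/
lemma h_indep {p : ℝ} {h : ℝ → ℝ → ℝ} (hh : Md p h)
    (R : Finset E) (hR0 : ∀ v ∈ R, v ≠ 0)
    (hpar : ∀ v ∈ R, ∀ w ∈ R, v ≠ w → ∀ c : ℝ, v ≠ c • w)
    (c : E → ℝ) (h0 : ∀ a r : E, ∑ v ∈ R, c v * h ⟪a, v⟫ ⟪r, v⟫ = 0) :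
    ∀ v ∈ R, c v = 0 := by
  classical
  intro v0 hv0
  by_contra hc
  have hv00 := hR0 v0 hv0
  have hvv : ⟪v0, v0⟫ ≠ 0 := inner_self_ne_zero.mpr hv00
  set a := (1 / ⟪v0, v0⟫) • v0 with ha
  have ha1 : ⟪a, v0⟫ = 1 := by
    rw [ha, real_inner_smul_left, one_div, inv_mul_cancel₀ hvv]
  have h1 := ridge v0 hv00 (R.erase v0) (by
    intro v hv
    have hvR := Finset.mem_of_mem_erase hv
    exact exists_w v v0 (hR0 v hvR) (fun cc => hpar v0 hv0 v hvR (Finset.ne_of_mem_erase hv).symm cc))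
    (fun s => c v0 * h 1 s) (fun v s => c v * h ⟪a, v⟫ s) (by
      intro r
      have := h0 a r
      rw [← Finset.add_sum_erase _ _ hv0, ha1] at this
      exact this)
  have hcont : Continuous (fun s => c v0 * h 1 s) := by
    have : Continuous (fun s : ℝ => h 1 s) := hh.cont.comp (by fun_prop : Continuous
      (fun s : ℝ => ((1 : ℝ), s)))
    exact continuous_const.mul this
  obtain ⟨P, hP⟩ := frechet _ hcont _ h1
  obtain ⟨t, ht⟩ := hh.notPoly (Polynomial.C (1 / c v0) * P)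
  apply ht
  rw [Polynomial.eval_mul, Polynomial.eval_C, ← hP t]
  field_simp

end Pool.Agent.TH857.EucFin
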