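import Mathlib
import Pool.Agent.TH857.Frechet

open Set Metric MeasureTheory Topology Filter
open scoped RealInnerProductSpace

namespace Pool.Agent.TH857.EucFin

variable {E : Type*} [NormedAddCommGroup E] [InnerProductSpace ℝ E]

/-- The vector of the values `h ⟪a, v⟫ ⟪r, v⟫`, `v ∈ R`. -/
def GH (h : ℝ → ℝ → ℝ) (R : Finset E) (z : E × E) : R → ℝ :=
  fun v => h ⟪z.1, (v : E)⟫ ⟪z.2, (v : E)⟫

/-- The cone of finite sums of values of `GH`. -/
def CH (h : ℝ → ℝ → ℝ) (R : Finset E) : Set (R → ℝ) :=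
  {x | ∃ l : List (E × E), (l.map (GH h R)).sum = x}

variable {p : ℝ} {h : ℝ → ℝ → ℝ}

lemma GH_mem (h : ℝ → ℝ → ℝ) (R : Finset E) (z : E × E) : GH h R z ∈ CH h R := ⟨[z], by simp⟩

lemma CH_zero_mem (h : ℝ → ℝ → ℝ) (R : Finset E) : (0 : R → ℝ) ∈ CH h R := ⟨[], by simp⟩

lemma CH_add_mem {R : Finset E} {x y : R → ℝ} (hx : x ∈ CH h R) (hy : y ∈ CH h R) :
    x + y ∈ CH h R := by
  obtain ⟨l, hl⟩ := hx
  obtain ⟨l', hl'⟩ := hy
  exact ⟨l ++ l', by simp [hl, hl']⟩

lemma GH_smul (hp : 0 < p) (hh : Md p h) (R : Finset E) (t : ℝ) (ht : 0 ≤ t) (z : E × E) :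
    GH h R (t ^ (1 / p) • z) = t • GH h R z := by
  funext v
  have h1 : 0 ≤ t ^ (1 / p) := Real.rpow_nonneg ht _
  simp only [GH, Pi.smul_apply, smul_eq_mul, Prod.smul_fst, Prod.smul_snd,
    real_inner_smul_left]
  rw [hh.hom _ _ _ h1, ← Real.rpow_mul ht, one_div, inv_mul_cancel₀ hp.ne', Real.rpow_one]

lemma CH_smul_mem (hp : 0 < p) (hh : Md p h) {R : Finset E} {x : R → ℝ} (hx : x ∈ CH h R) (t : ℝ)
    (ht : 0 ≤ t) : t • x ∈ CH h R := by
  obtain ⟨l, hl⟩ := hx
  refine ⟨l.map (fun r => t ^ (1 / p) • r), ?_⟩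
  rw [← hl, List.map_map, List.smul_sum, List.map_map]
  congr 1
  apply List.map_congr_left
  intro r _
  simp only [Function.comp]
  exact GH_smul hp hh R t ht r

lemma convex_CH (hp : 0 < p) (hh : Md p h) (R : Finset E) : Convex ℝ (CH h R) := by
  intro x hx y hy a b ha hb _
  exact CH_add_mem (CH_smul_mem hp hh hx a ha) (CH_smul_mem hp hh hy b hb)

lemma functional_eq_zero (hh : Md p h)
    (R : Finset E) (hR0 : ∀ v ∈ R, v ≠ 0)
    (hpar : ∀ v ∈ R, ∀ w ∈ R, v ≠ w → ∀ c : ℝ, v ≠ c • w)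
    (f : (R → ℝ) →ₗ[ℝ] ℝ) (hf : ∀ z, f (GH h R z) = 0) : f = 0 := by
  classical
  let c : E → ℝ := fun v => if hv : v ∈ R then f (Pi.single ⟨v, hv⟩ 1) else 0
  have hsum : ∀ x : R → ℝ, f x = ∑ v : R, c v * x v := by
    intro x
    conv_lhs => rw [← Finset.univ_sum_single x]
    rw [map_sum]
    refine Finset.sum_congr rfl fun v _ => ?_
    have : Pi.single (M := fun _ : R => ℝ) v (x v) = x v • Pi.single v (1 : ℝ) := by
      rw [← Pi.single_smul]; simp
    rw [this, map_smul, smul_eq_mul, mul_comm]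
    congr 1
    simp [c]
  have hc := h_indep hh R hR0 hpar c (by
    intro a r
    have h1 := hf (a, r)
    rw [hsum] at h1
    rw [← Finset.sum_coe_sort]
    exact h1)
  apply LinearMap.ext
  intro y
  simp only [LinearMap.zero_apply]
  rw [hsum]
  refine Finset.sum_eq_zero fun v _ => ?_
  rw [hc v v.2, zero_mul]

lemma span_GH (hh : Md p h)
    (R : Finset E) (hR0 : ∀ v ∈ R, v ≠ 0)
    (hpar : ∀ v ∈ R, ∀ w ∈ R, v ≠ w → ∀ c : ℝ, v ≠ c • w) :
    Submodule.span ℝ (Set.range (GH h R)) = ⊤ := by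
  by_contra hlt
  have hlt' : Submodule.span ℝ (Set.range (GH h R)) < ⊤ := lt_top_iff_ne_top.mpr hlt
  obtain ⟨f, hf0, hf⟩ := Submodule.exists_le_ker_of_lt_top _ hlt'
  apply hf0
  exact functional_eq_zero hh R hR0 hpar f (fun z => hf (Submodule.subset_span ⟨z, rfl⟩))

lemma CH_interior_nonempty (hp : 0 < p) (hh : Md p h)
    (R : Finset E) (hR0 : ∀ v ∈ R, v ≠ 0)
    (hpar : ∀ v ∈ R, ∀ w ∈ R, v ≠ w → ∀ c : ℝ, v ≠ c • w) :
    (interior (CH h R)).Nonempty := by
  rw [(convex_CH hp hh R).interior_nonempty_iff_affineSpan_eq_top]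
  rw [AffineSubspace.affineSpan_eq_top_iff_vectorSpan_eq_top_of_nonempty _ _ _ ⟨0, CH_zero_mem h R⟩]
  rw [eq_top_iff, ← span_GH hh R hR0 hpar]
  rw [Submodule.span_le]
  rintro x ⟨r, rfl⟩
  have := vsub_mem_vectorSpan ℝ (GH_mem h R r) (CH_zero_mem h R)
  simpa using this

variable [FiniteDimensional ℝ E] [MeasurableSpace E] [BorelSpace E]

lemma ball_integral_eq (h : ℝ → ℝ → ℝ) (u u' : E) (huu : ‖u‖ = ‖u'‖) :
    ∫ z in ball (0 : E) 1 ×ˢ ball (0 : E) 1, h ⟪z.1, u⟫ ⟪z.2, u⟫ =
      ∫ z in ball (0 : E) 1 ×ˢ ball (0 : E) 1, h ⟪z.1, u'⟫ ⟪z.2, u'⟫ := by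
  set ρ := Submodule.reflection (ℝ ∙ (u - u'))ᗮ with hρdef
  have hρ : ρ u = u' := Submodule.reflection_sub huu
  have hm : MeasurePreserving ρ volume volume := ρ.measurePreserving
  have hm2 : MeasurePreserving (Prod.map ρ ρ) (volume : Measure (E × E)) volume := hm.prod hm
  have he : MeasurableEmbedding (Prod.map ρ ρ) :=
    (ρ.toHomeomorph.prodCongr ρ.toHomeomorph).measurableEmbedding
  have h1 := hm2.setIntegral_preimage_emb he
    (fun y => h ⟪y.1, u'⟫ ⟪y.2, u'⟫) (ball (0 : E) 1 ×ˢ ball (0 : E) 1)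
  have h2 : Prod.map ρ ρ ⁻¹' (ball (0 : E) 1 ×ˢ ball (0 : E) 1) =
      ball (0 : E) 1 ×ˢ ball (0 : E) 1 := by
    ext z
    simp [mem_ball_zero_iff]
  rw [h2] at h1
  rw [← h1]
  refine setIntegral_congr_fun (measurableSet_ball.prod measurableSet_ball) ?_
  intro x _
  simp only [Prod.map_fst, Prod.map_snd]
  rw [← hρ, ρ.inner_map_map, ρ.inner_map_map]

/-- The constant vector is in the interior of the cone. -/
lemma CH_one_mem_interior (hp : 0 < p) (hh : Md p h)
    (R : Finset E) (hunit : ∀ v ∈ R, ‖v‖ = 1)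
    (hpar : ∀ v ∈ R, ∀ w ∈ R, v ≠ w → ∀ c : ℝ, v ≠ c • w) :
    (fun _ => (1 : ℝ)) ∈ interior (CH h R) := by
  classical
  have hR0 : ∀ v ∈ R, v ≠ 0 := by
    intro v hv h0
    have := hunit v hv
    rw [h0, norm_zero] at this
    norm_num at this
  by_contra hnot
  obtain ⟨f, hf⟩ := geometric_hahn_banach_open_point (convex_CH hp hh R).interior
    isOpen_interior hnot
  obtain ⟨a, ha⟩ := CH_interior_nonempty hp hh R hR0 hpar
  -- the functional is nonpositive on the cone
  have hneg : ∀ x ∈ CH h R, f x ≤ 0 := by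
    intro x hx
    by_contra hpos
    push Not at hpos
    have hint : ∀ t : ℝ, 0 ≤ t → t • x + a ∈ interior (CH h R) := by
      intro t ht
      have hsub : (fun y => t • x + y) '' interior (CH h R) ⊆ CH h R := by
        rintro _ ⟨y, hy, rfl⟩
        exact CH_add_mem (CH_smul_mem hp hh hx t ht) (interior_subset hy)
      have hopen : IsOpen ((fun y => t • x + y) '' interior (CH h R)) :=
        (Homeomorph.addLeft (t • x)).isOpenMap _ isOpen_interior
      exact interior_maximal hsub hopen ⟨a, ha, rfl⟩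
    have h1 := hf _ (hint ((|f (fun _ => (1 : ℝ))| + |f a| + 1) / f x) (by positivity))
    rw [map_add, map_smul, smul_eq_mul, div_mul_cancel₀ _ hpos.ne'] at h1
    have h2 := neg_abs_le (f a)
    have h3 := le_abs_self (f (fun _ => (1 : ℝ)))
    linarith
  -- the functional is nonnegative at the constant vector
  have hone : 0 ≤ f (fun _ => (1 : ℝ)) := by
    by_contra hlt
    push Not at hlt
    have hint : ∀ t : ℝ, 0 < t → t • a ∈ interior (CH h R) := by
      intro t ht
      have hsub : (fun y => t • y) '' interior (CH h R) ⊆ CH h R := by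
        rintro _ ⟨y, hy, rfl⟩
        exact CH_smul_mem hp hh (interior_subset hy) t ht.le
      have hopen : IsOpen ((fun y : R → ℝ => t • y) '' interior (CH h R)) :=
        (Homeomorph.smulOfNeZero t ht.ne').isOpenMap _ isOpen_interior
      exact interior_maximal hsub hopen ⟨a, ha, rfl⟩
    have h1 := hf _ (hint (-f (fun _ => (1 : ℝ)) / (|f a| + 1)) (by
      have := abs_nonneg (f a); exact div_pos (by linarith) (by linarith)))
    rw [map_smul, smul_eq_mul] at h1
    have h2 := neg_abs_le (f a)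
    have h3 := abs_nonneg (f a)
    have h4 : -f (fun _ => (1 : ℝ)) / (|f a| + 1) * f a ≥
        -f (fun _ => (1 : ℝ)) / (|f a| + 1) * (-(|f a| + 1)) := by
      apply mul_le_mul_of_nonneg_left
      · linarith
      · exact (div_pos (by linarith) (by linarith)).le
    have h5 : -f (fun _ => (1 : ℝ)) / (|f a| + 1) * (-(|f a| + 1)) = f (fun _ => (1 : ℝ)) := by
      field_simp
    linarith
  -- coordinates of the functional
  let c : E → ℝ := fun v => if hv : v ∈ R then f (Pi.single ⟨v, hv⟩ 1) else 0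
  have hsum : ∀ x : R → ℝ, f x = ∑ v : R, c v * x v := by
    intro x
    conv_lhs => rw [← Finset.univ_sum_single x]
    rw [map_sum]
    refine Finset.sum_congr rfl fun v _ => ?_
    have : Pi.single (M := fun _ : R => ℝ) v (x v) = x v • Pi.single v (1 : ℝ) := by
      rw [← Pi.single_smul]; simp
    rw [this, map_smul, smul_eq_mul, mul_comm]
    congr 1
    simp [c]
  -- integrate
  have hcont1 : ∀ v : E, Continuous (fun z : E × E => h ⟪z.1, v⟫ ⟪z.2, v⟫) := by
    intro v
    exact hh.cont.comp (by fun_prop : Continuous (fun z : E × E => (⟪z.1, v⟫, ⟪z.2, v⟫)))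
  have hcont : Continuous (fun z : E × E => ∑ v : R, c v * h ⟪z.1, (v : E)⟫ ⟪z.2, (v : E)⟫) :=
    continuous_finsetSum _ fun v _ => continuous_const.mul (hcont1 v)
  have hle : ∀ z : E × E, ∑ v : R, c v * h ⟪z.1, (v : E)⟫ ⟪z.2, (v : E)⟫ ≤ 0 := by
    intro z
    have h1 := hneg _ (GH_mem h R z)
    rw [hsum] at h1
    exact h1
  have hc1 : 0 ≤ ∑ v : R, c v := by
    have h1 := hone
    rw [hsum] at h1
    simpa using h1
  have hintegrable : ∀ v : E, IntegrableOn (fun z : E × E => h ⟪z.1, v⟫ ⟪z.2, v⟫)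
      (ball (0 : E) 1 ×ˢ ball (0 : E) 1) := by
    intro v
    exact ((hcont1 v).continuousOn.integrableOn_compact
      ((isCompact_closedBall (0 : E) 1).prod (isCompact_closedBall (0 : E) 1))).mono_set
      (Set.prod_mono ball_subset_closedBall ball_subset_closedBall)
  have hzero : ∫ z in ball (0 : E) 1 ×ˢ ball (0 : E) 1,
      (-(∑ v : R, c v * h ⟪z.1, (v : E)⟫ ⟪z.2, (v : E)⟫)) = 0 := by
    apply le_antisymm
    · rw [integral_neg, neg_nonpos, integral_finsetSum]
      · rcases R.eq_empty_or_nonempty with hR | ⟨v0, hv0⟩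
        · subst hR; simp
        · have h1 : ∀ v : R, ∫ z in ball (0 : E) 1 ×ˢ ball (0 : E) 1,
              c v * h ⟪z.1, (v : E)⟫ ⟪z.2, (v : E)⟫ =
              c v * ∫ z in ball (0 : E) 1 ×ˢ ball (0 : E) 1, h ⟪z.1, v0⟫ ⟪z.2, v0⟫ := by
            intro v
            rw [integral_const_mul, ball_integral_eq h (v : E) v0
              (by rw [hunit v v.2, hunit v0 hv0])]
          simp only [h1]
          rw [← Finset.sum_mul]
          exact mul_nonneg hc1 (integral_nonneg fun z => hh.nonneg _ _)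
      · intro v _
        exact (hintegrable v).const_mul _
    · exact integral_nonneg fun z => by
        have := hle z
        simp only [Pi.zero_apply]
        linarith
  have hae : (fun z : E × E => -(∑ v : R, c v * h ⟪z.1, (v : E)⟫ ⟪z.2, (v : E)⟫))
      =ᵐ[volume.restrict (ball (0 : E) 1 ×ˢ ball (0 : E) 1)] (fun _ => (0 : ℝ)) := by
    have h1 := (integral_eq_zero_iff_of_nonneg
      (μ := volume.restrict (ball (0 : E) 1 ×ˢ ball (0 : E) 1))
      (f := fun z : E × E => -(∑ v : R, c v * h ⟪z.1, (v : E)⟫ ⟪z.2, (v : E)⟫)) (by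
        intro z
        have := hle z
        simp only [Pi.zero_apply]
        linarith) (by
        refine Integrable.neg ?_
        refine integrable_finsetSum _ fun v _ => ?_
        exact (hintegrable v).const_mul _)).mp hzero
    exact h1
  have hball : EqOn (fun z : E × E => -(∑ v : R, c v * h ⟪z.1, (v : E)⟫ ⟪z.2, (v : E)⟫))
      (fun _ => (0 : ℝ)) (ball (0 : E) 1 ×ˢ ball (0 : E) 1) :=
    Measure.eqOn_open_of_ae_eq hae (isOpen_ball.prod isOpen_ball) hcont.neg.continuousOn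
      continuousOn_const
  -- homogeneity gives vanishing everywhere
  have hall : ∀ a r : E, ∑ v ∈ R, c v * h ⟪a, v⟫ ⟪r, v⟫ = 0 := by
    intro a r
    rw [← Finset.sum_coe_sort]
    set t : ℝ := 1 / (‖a‖ + ‖r‖ + 1) with ht
    have hrn := norm_nonneg r
    have han := norm_nonneg a
    have htpos : 0 < t := by positivity
    have hmem : (t • a, t • r) ∈ ball (0 : E) 1 ×ˢ ball (0 : E) 1 := by
      rw [Set.mem_prod]
      constructor
      · rw [mem_ball_zero_iff, norm_smul, Real.norm_of_nonneg htpos.le, ht, one_div,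
          inv_mul_lt_iff₀ (by positivity)]
        linarith
      · rw [mem_ball_zero_iff, norm_smul, Real.norm_of_nonneg htpos.le, ht, one_div,
          inv_mul_lt_iff₀ (by positivity)]
        linarith
    have h1 := hball hmem
    simp only [neg_eq_zero] at h1
    have h2 : ∀ v : R, c v * h ⟪t • a, (v : E)⟫ ⟪t • r, (v : E)⟫ =
        t ^ p * (c v * h ⟪a, (v : E)⟫ ⟪r, (v : E)⟫) := by
      intro v
      rw [real_inner_smul_left, real_inner_smul_left, hh.hom _ _ _ htpos.le]
      ring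
    simp only [h2] at h1
    rw [← Finset.mul_sum] at h1
    rcases mul_eq_zero.mp h1 with h3 | h3
    · exact absurd h3 (Real.rpow_pos_of_pos htpos p).ne'
    · exact h3
  have hc0 := h_indep hh R hR0 hpar c hall
  have hfz : ∀ x : R → ℝ, f x = 0 := by
    intro x
    rw [hsum]
    exact Finset.sum_eq_zero fun v _ => by rw [hc0 v v.2, zero_mul]
  have h1 := hf a ha
  rw [hfz, hfz] at h1
  exact lt_irrefl _ h1

end Pool.Agent.TH857.EucFin
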