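import Mathlib
import Pool.Agent.TH857.ConeH
import Pool.Agent.TH364.Colorful

open Set Metric MeasureTheory Topology Filter
open scoped RealInnerProductSpace

namespace Pool.Agent.TH857.EucFin

variable {E : Type*} [NormedAddCommGroup E] [InnerProductSpace ℝ E]

/-- Independent values, one for each function of the sequence. -/
lemma greedy {p : ℝ} (h : ℕ → ℝ → ℝ → ℝ) (hh : ∀ j, Md p (h j))
    (R : Finset E) (hR0 : ∀ v ∈ R, v ≠ 0)
    (hpar : ∀ v ∈ R, ∀ w ∈ R, v ≠ w → ∀ c : ℝ, v ≠ c • w) (n : ℕ) (hn : n ≤ R.card) :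
    ∃ t : Fin n → E × E, LinearIndependent ℝ (fun i : Fin n => GH (h i) R (t i)) := by
  induction n with
  | zero => exact ⟨fun i => i.elim0, linearIndependent_empty_type⟩
  | succ n ih =>
    obtain ⟨t, ht⟩ := ih (by omega)
    have hlt : Submodule.span ℝ (Set.range (fun i : Fin n => GH (h i) R (t i))) ≠ ⊤ := by
      intro htop
      have h1 := finrank_span_eq_card ht
      rw [htop, finrank_top, Module.finrank_fintype_fun_eq_card, Fintype.card_coe,
        Fintype.card_fin] at h1
      omega
    obtain ⟨z, hz⟩ : ∃ z : E × E, GH (h n) R z ∉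
        Submodule.span ℝ (Set.range (fun i : Fin n => GH (h i) R (t i))) := by
      by_contra hno
      push Not at hno
      apply hlt
      rw [eq_top_iff, ← span_GH (hh n) R hR0 hpar, Submodule.span_le]
      rintro _ ⟨z, rfl⟩
      exact hno z
    refine ⟨Fin.snoc t z, ?_⟩
    have heq : (fun i : Fin (n + 1) => GH (h i) R ((Fin.snoc t z : Fin (n + 1) → E × E) i)) =
        Fin.snoc (fun i : Fin n => GH (h i) R (t i)) (GH (h n) R z) := by
      funext i
      refine Fin.lastCases ?_ (fun i => ?_) i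
      · simp
      · simp
    rw [heq, linearIndependent_finSnoc]
    exact ⟨ht, hz⟩

/-- The values normalised to have a prescribed sum of coordinates. -/
def BH (h : ℝ → ℝ → ℝ) (R : Finset E) (σ : ℝ) : Set (R → ℝ) :=
  {x | (∃ z, x = GH h R z) ∧ ∑ v, x v = σ}

lemma CH_normalised {p : ℝ} (hp : 0 < p) {h : ℝ → ℝ → ℝ} (hh : Md p h) (R : Finset E) (σ : ℝ)
    (hσ : 0 < σ) (l : List (E × E)) (hl : 0 < ∑ v, (l.map (GH h R)).sum v) :
    (σ / ∑ v, (l.map (GH h R)).sum v) • (l.map (GH h R)).sum ∈ convexHull ℝ (BH h R σ) := by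
  induction l with
  | nil => simp at hl
  | cons t l ih =>
    have hnn : ∀ (l : List (E × E)) (v : R), 0 ≤ (l.map (GH h R)).sum v := by
      intro l v
      induction l with
      | nil => simp
      | cons t l ih =>
        simp only [List.map_cons, List.sum_cons, Pi.add_apply]
        exact add_nonneg (hh.nonneg _ _) ih
    rw [List.map_cons, List.sum_cons] at hl ⊢
    set x := GH h R t with hx
    set y := (l.map (GH h R)).sum with hy
    have hxn : ∀ v, 0 ≤ x v := fun v => hh.nonneg _ _
    have hyn : ∀ v, 0 ≤ y v := fun v => hnn l v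
    have hsum : ∑ v, (x + y) v = ∑ v, x v + ∑ v, y v := by
      simp [Finset.sum_add_distrib]
    rw [hsum] at hl ⊢
    have hsx : 0 ≤ ∑ v, x v := Finset.sum_nonneg fun v _ => hxn v
    have hsy : 0 ≤ ∑ v, y v := Finset.sum_nonneg fun v _ => hyn v
    rcases hsx.eq_or_lt with hx0 | hx0
    · have : x = 0 := by
        funext v
        exact (Finset.sum_eq_zero_iff_of_nonneg (fun v _ => hxn v)).mp hx0.symm v
          (Finset.mem_univ v)
      rw [← hx0] at hl ⊢
      rw [this, zero_add, zero_add]
      rw [zero_add] at hl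
      exact ih hl
    · have hxB : (σ / ∑ v, x v) • x ∈ BH h R σ := by
        refine ⟨⟨(σ / ∑ v, x v) ^ (1 / p) • t, ?_⟩, ?_⟩
        · rw [GH_smul hp hh R _ (by positivity)]
        · simp only [Pi.smul_apply, smul_eq_mul]
          rw [← Finset.mul_sum, div_mul_cancel₀ _ hx0.ne']
      rcases hsy.eq_or_lt with hy0 | hy0
      · have : y = 0 := by
          funext v
          exact (Finset.sum_eq_zero_iff_of_nonneg (fun v _ => hyn v)).mp hy0.symm v
            (Finset.mem_univ v)
        rw [← hy0, this, add_zero, add_zero]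
        exact subset_convexHull ℝ _ hxB
      · have h1 := ih hy0
        have h2 := subset_convexHull ℝ _ hxB
        have h3 := (convex_convexHull ℝ (BH h R σ)) h2 h1
          (a := (∑ v, x v) / (∑ v, x v + ∑ v, y v)) (b := (∑ v, y v) / (∑ v, x v + ∑ v, y v))
          (by positivity) (by positivity) (by field_simp)
        rw [smul_smul, smul_smul] at h3
        have e1 : (∑ v, x v) / (∑ v, x v + ∑ v, y v) * (σ / ∑ v, x v) =
            σ / (∑ v, x v + ∑ v, y v) := by field_simp
        have e2 : (∑ v, y v) / (∑ v, x v + ∑ v, y v) * (σ / ∑ v, y v) =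
            σ / (∑ v, x v + ∑ v, y v) := by field_simp
        rw [e1, e2, ← smul_add] at h3
        exact h3

/-- A vector lying in all the cones is a sum of one value of each function. -/
lemma rainbow {p : ℝ} (hp : 0 < p) (R : Finset E) (h : Fin (R.card + 1) → ℝ → ℝ → ℝ)
    (hh : ∀ j, Md p (h j))
    (z : R → ℝ) (hz : 0 < ∑ v, z v) (hzC : ∀ j, z ∈ CH (h j) R) :
    ∃ s : Fin (R.card + 1) → E × E, z = ∑ j, GH (h j) R (s j) := by
  classical
  set σ := ∑ v, z v with hσ
  have hB : ∀ j, z ∈ convexHull ℝ (BH (h j) R σ) := by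
    intro j
    obtain ⟨l, hl⟩ := hzC j
    have h1 := CH_normalised hp (hh j) R σ hz l (by rw [hl]; exact hz)
    rw [hl, ← hσ, div_self hz.ne', one_smul] at h1
    exact h1
  have hfin : ∀ j, ∃ t : Finset (R → ℝ), (t : Set (R → ℝ)) ⊆ BH (h j) R σ ∧
      z ∈ convexHull ℝ (t : Set (R → ℝ)) := by
    intro j
    have h1 := hB j
    rw [convexHull_eq_union_convexHull_finite_subsets] at h1
    simp only [Set.mem_iUnion] at h1
    obtain ⟨t, ht, hzt⟩ := h1
    exact ⟨t, ht, hzt⟩
  choose t ht hzt using hfin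
  let e : (R → ℝ) ≃ₗ[ℝ] EuclideanSpace ℝ R := (WithLp.linearEquiv 2 ℝ (R → ℝ)).symm
  let W : Fin R.card → Finset (EuclideanSpace ℝ R) :=
    fun i => (t i.castSucc).image (fun x => e (x - z))
  have hW : ∀ i, (0 : EuclideanSpace ℝ R) ∈ convexHull ℝ (W i : Set (EuclideanSpace ℝ R)) := by
    intro i
    have hsub : convexHull ℝ (t i.castSucc : Set (R → ℝ)) ⊆
        {x | e (x - z) ∈ convexHull ℝ (W i : Set (EuclideanSpace ℝ R))} := by
      refine convexHull_min ?_ ?_
      · intro x hx
        apply subset_convexHull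
        simp only [W, Finset.coe_image]
        exact ⟨x, hx, rfl⟩
      · intro x hx y hy a b ha hb hab
        have h1 := (convex_convexHull ℝ (W i : Set (EuclideanSpace ℝ R))) hx hy ha hb hab
        show e (a • x + b • y - z) ∈ convexHull ℝ (W i : Set (EuclideanSpace ℝ R))
        have h2 : a • x + b • y - z = a • (x - z) + b • (y - z) := by
          have : z = a • z + b • z := by rw [← add_smul, hab, one_smul]
          conv_lhs => rw [this]
          rw [smul_sub, smul_sub]; abel
        rw [h2, map_add, map_smul, map_smul]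
        exact h1
    have h1 := hsub (hzt i.castSucc)
    simpa using h1
  have hne : (t (Fin.last _)).Nonempty := by
    have := convexHull_nonempty_iff.1 ⟨z, hzt (Fin.last _)⟩
    exact_mod_cast this
  obtain ⟨xs, hxs⟩ := hne
  obtain ⟨w, hw, hw0⟩ := Pool.Agent.TH364.Colorful.colorful (E := EuclideanSpace ℝ R)
    (ι := Fin R.card) (by simp) W hW (e (xs - z))
  have hwt : ∀ i, ∃ y ∈ t i.castSucc, e (y - z) = w i := by
    intro i
    have := hw i
    simp only [W, Finset.mem_image] at this
    exact this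
  choose y hy hyw using hwt
  let f : Fin (R.card + 1) → (R → ℝ) := Fin.snoc y xs
  have hfB : ∀ j, f j ∈ BH (h j) R σ := by
    intro j
    refine Fin.lastCases ?_ (fun i => ?_) j
    · simp only [f, Fin.snoc_last]; exact ht _ hxs
    · simp only [f, Fin.snoc_castSucc]; exact ht _ (hy i)
  let D : Set (R → ℝ) := {x | ∃ c : Fin (R.card + 1) → ℝ, (∀ j, 0 ≤ c j) ∧ ∑ j, c j = 1 ∧
    x = ∑ j, c j • f j}
  have hDconv : Convex ℝ D := by
    rintro x ⟨c, hc, hc1, rfl⟩ y' ⟨c', hc', hc1', rfl⟩ a b ha hb hab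
    refine ⟨fun j => a * c j + b * c' j, fun j => ?_, ?_, ?_⟩
    · have := hc j; have := hc' j; positivity
    · rw [Finset.sum_add_distrib, ← Finset.mul_sum, ← Finset.mul_sum, hc1, hc1']; linarith
    · rw [Finset.smul_sum, Finset.smul_sum, ← Finset.sum_add_distrib]
      refine Finset.sum_congr rfl fun j _ => ?_
      rw [smul_smul, smul_smul, add_smul]
  have hfD : ∀ j, f j ∈ D := by
    intro j
    refine ⟨Pi.single j 1, fun i => ?_, by simp, ?_⟩
    · by_cases hij : i = j
      · subst hij; simp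
      · simp [Pi.single_apply, hij]
    · rw [Finset.sum_eq_single j]
      · simp
      · intro b _ hb; simp [Pi.single_apply, hb]
      · simp
  have hzD : z ∈ D := by
    have hsub : convexHull ℝ (insert (e (xs - z)) (Set.range w)) ⊆
        {u | z + e.symm u ∈ D} := by
      refine convexHull_min ?_ ?_
      · rintro u (rfl | ⟨i, rfl⟩)
        · show z + e.symm (e (xs - z)) ∈ D
          rw [LinearEquiv.symm_apply_apply, add_sub_cancel]
          have := hfD (Fin.last _)
          simpa [f] using this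
        · show z + e.symm (w i) ∈ D
          rw [← hyw i, LinearEquiv.symm_apply_apply, add_sub_cancel]
          have := hfD i.castSucc
          simpa [f] using this
      · intro u hu u' hu' a b ha hb hab
        have h1 := hDconv hu hu' ha hb hab
        show z + e.symm (a • u + b • u') ∈ D
        have h2 : z + e.symm (a • u + b • u') = a • (z + e.symm u) + b • (z + e.symm u') := by
          have : z = a • z + b • z := by rw [← add_smul, hab, one_smul]
          conv_lhs => rw [this]
          rw [map_add, map_smul, map_smul, smul_add, smul_add]; abel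
        rw [h2]
        exact h1
    have := hsub hw0
    simpa using this
  obtain ⟨c, hc, _, hcz⟩ := hzD
  have hs : ∀ j, ∃ s : E × E, c j • f j = GH (h j) R s := by
    intro j
    obtain ⟨⟨u, hu⟩, _⟩ := hfB j
    exact ⟨(c j) ^ (1 / p) • u, by rw [GH_smul hp (hh j) R _ (hc j), hu]⟩
  choose s hs using hs
  exact ⟨s, by rw [hcz]; exact Finset.sum_congr rfl fun j _ => hs j⟩

variable [FiniteDimensional ℝ E]

/-- The decomposition of the constant vector used in the perturbation argument. -/
lemma decomposition {p : ℝ} (hp : 0 < p) (h : ℕ → ℝ → ℝ → ℝ) (hh : ∀ j, Md p (h j))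
    (R : Finset E) (hRne : R.Nonempty) (hunit : ∀ v ∈ R, ‖v‖ = 1)
    (hpar : ∀ v ∈ R, ∀ w ∈ R, v ≠ w → ∀ c : ℝ, v ≠ c • w) :
    ∃ (t : Fin R.card → E × E) (b : Module.Basis (Fin R.card) ℝ (R → ℝ)) (η : ℝ)
      (s : Fin (R.card + 1) → E × E), 0 < η ∧ (∀ i, b i = GH (h i) R (t i)) ∧
      (fun _ => (1 : ℝ)) = η • ∑ i : Fin R.card, GH (h i) R (t i) +
        ∑ j : Fin (R.card + 1), GH (h (R.card + j)) R (s j) := by
  classical
  let _ : MeasurableSpace E := borel E
  have _ : BorelSpace E := ⟨rfl⟩
  have hR0 : ∀ v ∈ R, v ≠ 0 := by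
    intro v hv h0
    have := hunit v hv
    rw [h0, norm_zero] at this
    norm_num at this
  obtain ⟨t, ht⟩ := greedy h hh R hR0 hpar R.card le_rfl
  have _ : Nonempty (Fin R.card) := ⟨⟨0, hRne.card_pos⟩⟩
  let b := basisOfLinearIndependentOfCardEqFinrank ht (by simp)
  have hb : ∀ i, b i = GH (h i) R (t i) := by
    intro i; simp [b]
  set B := ∑ i : Fin R.card, GH (h i) R (t i) with hB
  -- choose `η`
  have hsumone : 0 < ∑ _v : R, (1 : ℝ) := by
    simp [hRne.card_pos]
  have hev : ∀ j : Fin (R.card + 1), ∀ᶠ η in 𝓝 (0 : ℝ),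
      (fun _ => (1 : ℝ)) - η • B ∈ interior (CH (h (R.card + j)) R) := by
    intro j
    have hc : ContinuousAt (fun η : ℝ => (fun _ => (1 : ℝ)) - η • B) 0 := by fun_prop
    refine hc.eventually (isOpen_interior.mem_nhds ?_)
    show (fun _ => (1 : ℝ)) - (0 : ℝ) • B ∈ _
    rw [zero_smul, sub_zero]
    exact CH_one_mem_interior hp (hh _) R hunit hpar
  have hev2 : ∀ᶠ η in 𝓝 (0 : ℝ), 0 < ∑ v : R, (1 - η * B v) := by
    have hc : ContinuousAt (fun η : ℝ => ∑ v : R, (1 - η * B v)) 0 := by
      fun_prop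
    refine hc.eventually (lt_mem_nhds ?_)
    simpa using hsumone
  have hev3 : ∀ᶠ η in 𝓝[>] (0 : ℝ), η ∈ Ioi (0 : ℝ) := self_mem_nhdsWithin
  obtain ⟨η, ⟨hη1, hη2⟩, hη3⟩ := (((Filter.eventually_all.mpr hev).and hev2).filter_mono
    nhdsWithin_le_nhds |>.and hev3).exists
  obtain ⟨s, hs⟩ := rainbow hp R (fun j => h (R.card + j)) (fun j => hh _)
    ((fun _ => (1 : ℝ)) - η • B) hη2 (fun j => interior_subset (hη1 j))
  refine ⟨t, b, η, s, hη3, hb, ?_⟩
  rw [← hs]
  abel

end Pool.Agent.TH857.EucFin
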