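import Mathlib
import Pool.Agent.Helper133.Brouwer
import Pool.Agent.TH857.Combine
import Pool.Agent.TH857.AbsRpow

open Set Metric MeasureTheory Topology Filter
open scoped RealInnerProductSpace

namespace Pool.Agent.TH857.EucFin

/-- `X` contains all the finite `ℓ_p`-sums `F 0 ⊕_p ⋯ ⊕_p F (m-1)` almost isometrically. -/
def AlmostContainsSums (p : ℝ) (F : ℕ → Type*) [∀ j, NormedAddCommGroup (F j)]
    [∀ j, NormedSpace ℝ (F j)] (X : Type*) [NormedAddCommGroup X] [NormedSpace ℝ X] : Prop :=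
  ∀ (m : ℕ) (ε : ℝ), 0 < ε → ∃ J : ((j : Fin m) → F j) →ₗ[ℝ] X, ∀ z : (j : Fin m) → F j,
    (∑ j, ‖z j‖ ^ p) ^ (1 / p) ≤ ‖J z‖ ∧ ‖J z‖ ≤ (1 + ε) * (∑ j, ‖z j‖ ^ p) ^ (1 / p)

/-- The coordinate truncation. -/
noncomputable def clamp (δ : ℝ) {ι : Type*} (τ : ι → ℝ) : ι → ℝ := fun v => max (-δ) (min δ (τ v))

lemma clamp_abs {δ : ℝ} (hδ : 0 ≤ δ) {ι : Type*} (τ : ι → ℝ) (v : ι) : |clamp δ τ v| ≤ δ := by
  rw [abs_le]
  constructor
  · exact le_max_left _ _
  · exact max_le (by linarith) (min_le_left _ _)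

lemma clamp_eq {δ : ℝ} {ι : Type*} (τ : ι → ℝ) (h : ∀ v, |τ v| ≤ δ) : clamp δ τ = τ := by
  funext v
  have h1 := abs_le.mp (h v)
  simp only [clamp]
  rw [min_eq_right h1.2, max_eq_right h1.1]

lemma Md_norm {p : ℝ} (hp : 0 < p) {F : Type*} [NormedAddCommGroup F] [NormedSpace ℝ F] (x y : F)
    (hP : ∀ P : Polynomial ℝ, ∃ t : ℝ, ‖x + t • y‖ ^ p ≠ P.eval t) :
    Md p (fun s t => ‖s • x + t • y‖ ^ p) where
  cont := by
    refine Continuous.rpow_const (by fun_prop) (fun _ => Or.inr hp.le)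
  nonneg := fun s t => Real.rpow_nonneg (norm_nonneg _) _
  hom := by
    intro c s t hc
    have : (c * s) • x + (c * t) • y = c • (s • x + t • y) := by
      rw [smul_add, smul_smul, smul_smul]
    rw [this, norm_smul, Real.norm_of_nonneg hc, Real.mul_rpow hc (norm_nonneg _)]
  notPoly := by
    intro P
    obtain ⟨t, ht⟩ := hP P
    exact ⟨t, by simpa using ht⟩

variable {E : Type*} [NormedAddCommGroup E] [InnerProductSpace ℝ E] [FiniteDimensional ℝ E]

theorem exists_linear_unit {p : ℝ} (hp : 0 < p)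
    {F : ℕ → Type*} [∀ j, NormedAddCommGroup (F j)] [∀ j, NormedSpace ℝ (F j)]
    (hF : ∀ j, ∃ x y : F j, ∀ P : Polynomial ℝ, ∃ t : ℝ, ‖x + t • y‖ ^ p ≠ P.eval t)
    {X : Type*} [NormedAddCommGroup X] [NormedSpace ℝ X] (hX : AlmostContainsSums p F X)
    (R : Finset E) (hunit : ∀ v ∈ R, ‖v‖ = 1)
    (hpar : ∀ v ∈ R, ∀ w ∈ R, v ≠ w → ∀ c : ℝ, v ≠ c • w) :
    ∃ T : E →ₗ[ℝ] X, ∀ v ∈ R, ‖T v‖ = 1 := by
  classical
  rcases R.eq_empty_or_nonempty with hR | hRne
  · subst hR
    exact ⟨0, by simp⟩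
  choose x y hxy using hF
  let h : ℕ → ℝ → ℝ → ℝ := fun j s t => ‖s • x j + t • y j‖ ^ p
  have hh : ∀ j, Md p (h j) := fun j => Md_norm hp (x j) (y j) (hxy j)
  obtain ⟨N, t, b, ε, s, hε, hb, hone⟩ : ∃ (N : ℕ) (t : Fin N → E × E)
      (b : Module.Basis (Fin N) ℝ (R → ℝ)) (η : ℝ)
      (s : Fin (N + 1) → E × E), 0 < η ∧ (∀ i, b i = GH (h i) R (t i)) ∧
      (fun _ => (1 : ℝ)) = η • ∑ i : Fin N, GH (h i) R (t i) +
        ∑ j : Fin (N + 1), GH (h (N + j)) R (s j) :=
    ⟨R.card, decomposition hp h hh R hRne hunit hpar⟩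
  -- coordinates of small vectors are small
  obtain ⟨δ, hδ, hδ1, hδs⟩ : ∃ δ : ℝ, 0 < δ ∧ δ ≤ 1 ∧ ∀ τ : R → ℝ, (∀ v, |τ v| ≤ δ) →
      ∀ i, |b.repr τ i| ≤ ε := by
    have hc : Continuous (fun τ : R → ℝ => b.equivFun τ) :=
      LinearMap.continuous_of_finiteDimensional (b.equivFun : (R → ℝ) →ₗ[ℝ] (Fin N → ℝ))
    have h1 := Metric.continuousAt_iff.mp (hc.continuousAt (x := (0 : R → ℝ))) ε hε
    obtain ⟨d, hd, hd2⟩ := h1
    refine ⟨min 1 (d / 2), by positivity, min_le_left _ _, ?_⟩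
    intro τ hτ i
    have h3 : dist τ 0 < d := by
      rw [dist_zero_right]
      have : ‖τ‖ ≤ d / 2 := by
        rw [pi_norm_le_iff_of_nonneg (by positivity)]
        intro v
        exact (hτ v).trans (min_le_right _ _)
      linarith
    have h4 := hd2 h3
    simp only [map_zero, dist_zero_right] at h4
    have h5 : |b.repr τ i| ≤ ‖b.equivFun τ‖ := norm_le_pi_norm (b.equivFun τ) i
    linarith
  -- the distortion parameter
  obtain ⟨η, hη, hη1⟩ : ∃ η : ℝ, 0 < η ∧ (1 + η) ^ p ≤ 1 + δ / 2 := by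
    have hc : ContinuousAt (fun η : ℝ => (1 + η) ^ p) 0 := by
      refine ContinuousAt.rpow_const (by fun_prop) (Or.inr hp.le)
    have h0 : (1 + (0 : ℝ)) ^ p < 1 + δ / 2 := by
      rw [add_zero, Real.one_rpow]; linarith
    have h1 : ∀ᶠ η in 𝓝 (0 : ℝ), (1 + η) ^ p < 1 + δ / 2 := hc.eventually (gt_mem_nhds h0)
    have h2 : ∀ᶠ η in 𝓝[>] (0 : ℝ), η ∈ Ioi (0 : ℝ) := self_mem_nhdsWithin
    obtain ⟨η, h3, h4⟩ := ((h1.filter_mono nhdsWithin_le_nhds).and h2).exists
    exact ⟨η, h4, h3.le⟩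
  obtain ⟨J, hJ⟩ := hX (N + (N + 1)) η hη
  -- the linear maps, first as functions of the coefficients
  let Tl : E → ((Fin (N + (N + 1)) → E × E) →ₗ[ℝ] ((j : Fin (N + (N + 1))) → F j)) := fun v =>
    { toFun := fun κ j => ⟪(κ j).1, v⟫ • x j + ⟪(κ j).2, v⟫ • y j
      map_add' := by
        intro κ κ'
        funext j
        simp only [Pi.add_apply, Prod.fst_add, Prod.snd_add, inner_add_left, add_smul]
        abel
      map_smul' := by
        intro c κ
        funext j
        simp only [Pi.smul_apply, Prod.smul_fst, Prod.smul_snd, real_inner_smul_left,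
          RingHom.id_apply, smul_add, smul_smul] }
  let κ : (R → ℝ) → (Fin (N + (N + 1)) → E × E) := fun τ =>
    Fin.append (fun i => (max 0 (ε + b.repr (clamp δ τ) i)) ^ (1 / p) • t i) s
  have hTsum : ∀ (τ : R → ℝ) (v : R), ∑ j, ‖Tl v (κ τ) j‖ ^ p = 1 + clamp δ τ v := by
    intro τ v
    have hcl : ∀ i, |b.repr (clamp δ τ) i| ≤ ε := hδs _ (clamp_abs hδ.le τ)
    have h0 : ∀ j : Fin (N + (N + 1)), ‖Tl v (κ τ) j‖ ^ p = GH (h j) R (κ τ j) v := fun j => rfl
    simp only [h0]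
    rw [Fin.sum_univ_add]
    have h1 : ∀ i : Fin N, GH (h (Fin.castAdd (N + 1) i)) R (κ τ (Fin.castAdd (N + 1) i)) v =
        (ε + b.repr (clamp δ τ) i) * (GH (h i) R (t i) v) := by
      intro i
      have h2 := abs_le.mp (hcl i)
      have h3 : 0 ≤ ε + b.repr (clamp δ τ) i := by linarith [h2.1]
      have h4 : κ τ (Fin.castAdd (N + 1) i) =
          (max 0 (ε + b.repr (clamp δ τ) i)) ^ (1 / p) • t i := by
        simp only [κ, Fin.append_left]
      rw [h4, max_eq_right h3, GH_smul hp (hh _) R _ h3]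
      rfl
    have h2 : ∀ j : Fin (N + 1), GH (h (Fin.natAdd N j)) R (κ τ (Fin.natAdd N j)) v =
        GH (h (N + j)) R (s j) v := by
      intro j
      have h4 : κ τ (Fin.natAdd N j) = s j := by simp only [κ, Fin.append_right]
      rw [h4]
      rfl
    simp only [h1, h2]
    have h5 := congrFun hone v
    simp only [Pi.add_apply, Pi.smul_apply, Finset.sum_apply, smul_eq_mul] at h5
    have h6 : clamp δ τ v = ∑ i, b.repr (clamp δ τ) i * GH (h i) R (t i) v := by
      have h7 := b.sum_repr (clamp δ τ)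
      have h8 := congrFun h7 v
      rw [← h8, Finset.sum_apply]
      refine Finset.sum_congr rfl fun i _ => ?_
      rw [Pi.smul_apply, smul_eq_mul, hb i]
    rw [h6, h5]
    simp only [add_mul, Finset.sum_add_distrib, Finset.mul_sum]
    ring
  -- the self map
  let Ψ : (R → ℝ) → (R → ℝ) := fun τ v => clamp δ τ v + 1 - ‖J (Tl v (κ τ))‖ ^ p
  have hbound : ∀ (τ : R → ℝ) (v : R), 1 + clamp δ τ v ≤ ‖J (Tl v (κ τ))‖ ^ p ∧
      ‖J (Tl v (κ τ))‖ ^ p ≤ (1 + δ / 2) * (1 + clamp δ τ v) := by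
    intro τ v
    have h1 := hJ (Tl v (κ τ))
    rw [hTsum] at h1
    have h2 := abs_le.mp (clamp_abs hδ.le τ v)
    have h3 : 0 ≤ 1 + clamp δ τ v := by linarith [h2.1]
    have h4 : ((1 + clamp δ τ v) ^ (1 / p)) ^ p = 1 + clamp δ τ v := by
      rw [← Real.rpow_mul h3, one_div, inv_mul_cancel₀ hp.ne', Real.rpow_one]
    constructor
    · calc 1 + clamp δ τ v = ((1 + clamp δ τ v) ^ (1 / p)) ^ p := h4.symm
        _ ≤ _ := Real.rpow_le_rpow (Real.rpow_nonneg h3 _) h1.1 hp.le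
    · calc ‖J (Tl v (κ τ))‖ ^ p ≤ ((1 + η) * (1 + clamp δ τ v) ^ (1 / p)) ^ p :=
            Real.rpow_le_rpow (norm_nonneg _) h1.2 hp.le
        _ = (1 + η) ^ p * (1 + clamp δ τ v) := by
            rw [Real.mul_rpow (by linarith) (Real.rpow_nonneg h3 _), h4]
        _ ≤ _ := mul_le_mul_of_nonneg_right hη1 h3
  have hΨ : ∀ τ v, |Ψ τ v| ≤ δ := by
    intro τ v
    have h1 := hbound τ v
    have h2 := abs_le.mp (clamp_abs hδ.le τ v)
    rw [abs_le]
    simp only [Ψ]
    constructor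
    · nlinarith [h1.2, h2.2]
    · linarith [h1.1]
  have hΨc : Continuous Ψ := by
    have hcl : Continuous (fun τ : R → ℝ => clamp δ τ) := by
      refine continuous_pi fun v => ?_
      simp only [clamp]
      fun_prop
    have hre : Continuous (fun τ : R → ℝ => b.equivFun τ) :=
      LinearMap.continuous_of_finiteDimensional (b.equivFun : (R → ℝ) →ₗ[ℝ] (Fin N → ℝ))
    have hκ : Continuous κ := by
      refine continuous_pi fun k => ?_
      induction k using Fin.addCases with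
      | left i =>
        simp only [κ, Fin.append_left]
        have hi : Continuous (fun τ : R → ℝ => (b.repr (clamp δ τ)) i) :=
          (continuous_pi_iff.mp (hre.comp hcl)) i
        have hi2 : Continuous (fun τ : R → ℝ => max 0 (ε + (b.repr (clamp δ τ)) i)) := by
          fun_prop
        have hi3 : Continuous (fun τ : R → ℝ =>
            (max 0 (ε + (b.repr (clamp δ τ)) i)) ^ (1 / p)) :=
          Continuous.rpow_const hi2 (fun _ => Or.inr (by positivity))
        exact hi3.smul continuous_const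
      | right j =>
        simp only [κ, Fin.append_right]
        exact continuous_const
    refine continuous_pi fun v => ?_
    have hJc : Continuous (fun a : Fin (N + (N + 1)) → E × E => J (Tl v a)) :=
      LinearMap.continuous_of_finiteDimensional (J.comp (Tl v))
    have hJn : Continuous (fun τ : R → ℝ => ‖J (Tl v (κ τ))‖ ^ p) :=
      Continuous.rpow_const (continuous_norm.comp (hJc.comp hκ)) (fun _ => Or.inr hp.le)
    exact (((continuous_apply v).comp hcl).add continuous_const).sub hJn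
  obtain ⟨τ, hτ⟩ := Pool.Agent.Helper133.Brouwer.brouwer Ψ hΨc δ (by
    intro τ
    rw [pi_norm_le_iff_of_nonneg hδ.le]
    intro v
    exact hΨ τ v)
  have hτδ : ∀ v, |τ v| ≤ δ := by
    intro v
    have := hΨ τ v
    rwa [hτ] at this
  -- conclusion
  let L : E →ₗ[ℝ] ((j : Fin (N + (N + 1))) → F j) :=
    { toFun := fun v => Tl v (κ τ)
      map_add' := by
        intro v w
        funext j
        show ⟪(κ τ j).1, v + w⟫ • x j + ⟪(κ τ j).2, v + w⟫ • y j = (_ + _) + (_ + _)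
        rw [inner_add_right, inner_add_right, add_smul, add_smul]
        abel
      map_smul' := by
        intro c v
        funext j
        show ⟪(κ τ j).1, c • v⟫ • x j + ⟪(κ τ j).2, c • v⟫ • y j = c • (_ + _)
        rw [real_inner_smul_right, real_inner_smul_right, smul_add, smul_smul, smul_smul] }
  refine ⟨J.comp L, ?_⟩
  intro v hv
  have h1 := congrFun hτ ⟨v, hv⟩
  simp only [Ψ] at h1
  rw [clamp_eq τ hτδ] at h1
  have h2 : ‖J (Tl v (κ τ))‖ ^ p = 1 := by linarith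
  have h3 : ‖J (Tl v (κ τ))‖ = 1 := by
    have h4 : (‖J (Tl v (κ τ))‖ ^ p) ^ (1 / p) = 1 := by rw [h2, Real.one_rpow]
    rwa [← Real.rpow_mul (norm_nonneg _), one_div, mul_inv_cancel₀ hp.ne', Real.rpow_one] at h4
  exact h3

omit [FiniteDimensional ℝ E] in
/-- Representatives of the directions. -/
lemma reps (D : Finset E) (hD : ∀ d ∈ D, d ≠ 0) :
    ∃ R : Finset E, (∀ v ∈ R, ‖v‖ = 1) ∧ (∀ v ∈ R, ∀ w ∈ R, v ≠ w → ∀ c : ℝ, v ≠ c • w) ∧
      ∀ d ∈ D, ∃ v ∈ R, ∃ c : ℝ, d = c • v := by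
  classical
  induction D using Finset.induction_on with
  | empty => exact ⟨∅, by simp, by simp, by simp⟩
  | insert d D hd ih =>
    obtain ⟨R, h1, h2, h3⟩ := ih (fun e he => hD e (Finset.mem_insert_of_mem he))
    have hd0 : d ≠ 0 := hD d (Finset.mem_insert_self _ _)
    have hdn : ‖d‖ ≠ 0 := norm_ne_zero_iff.mpr hd0
    by_cases hex : ∃ v ∈ R, ∃ c : ℝ, d = c • v
    · refine ⟨R, h1, h2, ?_⟩
      intro e he
      rcases Finset.mem_insert.mp he with rfl | he
      · exact hex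
      · exact h3 e he
    · push Not at hex
      set u := ‖d‖⁻¹ • d with hu
      have hun : ‖u‖ = 1 := by
        rw [hu, norm_smul, norm_inv, norm_norm, inv_mul_cancel₀ hdn]
      have hdu : d = ‖d‖ • u := by
        rw [hu, smul_smul, mul_inv_cancel₀ hdn, one_smul]
      have hne1 : ∀ v ∈ R, ∀ c : ℝ, u ≠ c • v := by
        intro v hv c hc
        apply hex v hv (‖d‖ * c)
        rw [mul_smul, ← hc, ← hdu]
      have hne2 : ∀ v ∈ R, ∀ c : ℝ, v ≠ c • u := by
        intro v hv c hc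
        have hc0 : c ≠ 0 := by
          rintro rfl
          rw [zero_smul] at hc
          have := h1 v hv
          rw [hc, norm_zero] at this
          norm_num at this
        apply hne1 v hv c⁻¹
        rw [hc, smul_smul, inv_mul_cancel₀ hc0, one_smul]
      refine ⟨insert u R, ?_, ?_, ?_⟩
      · intro v hv
        rcases Finset.mem_insert.mp hv with rfl | hv
        · exact hun
        · exact h1 v hv
      · intro v hv w hw hvw c
        rcases Finset.mem_insert.mp hv with rfl | hv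
        · rcases Finset.mem_insert.mp hw with rfl | hw
          · exact absurd rfl hvw
          · exact hne1 w hw c
        · rcases Finset.mem_insert.mp hw with rfl | hw
          · exact hne2 v hv c
          · exact h2 v hv w hw hvw c
      · intro e he
        rcases Finset.mem_insert.mp he with rfl | he
        · exact ⟨u, Finset.mem_insert_self _ _, _, hdu⟩
        · obtain ⟨v, hv, c, hc⟩ := h3 e he
          exact ⟨v, Finset.mem_insert_of_mem hv, c, hc⟩

/-- The embedding theorem. -/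
theorem embed {p : ℝ} (hp : 0 < p)
    {F : ℕ → Type*} [∀ j, NormedAddCommGroup (F j)] [∀ j, NormedSpace ℝ (F j)]
    (hF : ∀ j, ∃ x y : F j, ∀ P : Polynomial ℝ, ∃ t : ℝ, ‖x + t • y‖ ^ p ≠ P.eval t)
    {X : Type*} [NormedAddCommGroup X] [NormedSpace ℝ X] (hX : AlmostContainsSums p F X)
    {H : Type*} [NormedAddCommGroup H] [InnerProductSpace ℝ H] (A : Set H) (hA : A.Finite) :
    ∃ T : H →ₗ[ℝ] X, ∀ a ∈ A, ∀ b ∈ A, ‖T a - T b‖ = ‖a - b‖ := by
  classical
  let V : Submodule ℝ H := Submodule.span ℝ A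
  have _ : FiniteDimensional ℝ V := FiniteDimensional.span_of_finite ℝ hA
  -- the set of differences
  let D : Finset V := ((hA.toFinset ×ˢ hA.toFinset).image (fun q : H × H =>
    if hq : q.1 ∈ V ∧ q.2 ∈ V then (⟨q.1, hq.1⟩ - ⟨q.2, hq.2⟩ : V) else 0)).filter (fun d => d ≠ 0)
  obtain ⟨R, hunit, hpar, hDR⟩ := reps D (by
    intro d hd
    exact (Finset.mem_filter.mp hd).2)
  obtain ⟨T, hT⟩ := exists_linear_unit hp hF hX R hunit hpar
  obtain ⟨T', hT'⟩ := LinearMap.exists_extend T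
  refine ⟨T', ?_⟩
  intro a ha b hb
  by_cases hab : a = b
  · subst hab; simp
  have haV : a ∈ V := Submodule.subset_span ha
  have hbV : b ∈ V := Submodule.subset_span hb
  have hmem : (⟨a, haV⟩ - ⟨b, hbV⟩ : V) ∈ D := by
    rw [Finset.mem_filter]
    constructor
    · rw [Finset.mem_image]
      refine ⟨(a, b), ?_, ?_⟩
      · simp [ha, hb]
      · rw [dif_pos ⟨haV, hbV⟩]
    · intro h0
      apply hab
      have := congrArg Subtype.val (sub_eq_zero.mp h0)
      exact this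
  obtain ⟨v, hv, c, hc⟩ := hDR _ hmem
  have h1 : T' a - T' b = T (⟨a, haV⟩ - ⟨b, hbV⟩ : V) := by
    rw [← hT', map_sub]; rfl
  rw [h1, hc, map_smul, norm_smul, hT v hv, mul_one]
  have h2 : ‖(⟨a, haV⟩ - ⟨b, hbV⟩ : V)‖ = ‖a - b‖ := rfl
  rw [← h2, hc, norm_smul, hunit v hv, mul_one]

end Pool.Agent.TH857.EucFin
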