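import Mathlib
import Pool.Agent.TH857.MainEmbed

open Set Metric MeasureTheory Topology Filter
open scoped RealInnerProductSpace

namespace Pool.Agent.TH857.EucFin

/-- `t ↦ |t|^p` is not a polynomial when `p` is not an even integer. -/
lemma abs_rpow_not_poly (p : ℝ) (hpe : ∀ k : ℕ, p ≠ 2 * k) (P : Polynomial ℝ) :
    ∃ t : ℝ, ‖(0 : ℝ) + t • (1 : ℝ)‖ ^ p ≠ P.eval t := by
  by_contra hno
  push Not at hno
  apply not_analyticAt_abs_rpow p hpe
  have h1 : (fun t : ℝ => |t| ^ p) = fun t => ∑ i ∈ Finset.range (P.natDegree + 1),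
      P.coeff i * t ^ i := by
    funext t
    rw [← Polynomial.eval_eq_sum_range, ← hno t]
    simp
  rw [h1]
  refine Finset.analyticAt_fun_sum _ ?_
  intro i _
  exact analyticAt_const.mul (analyticAt_id.pow i)

/-- If `‖x + t y‖²` is a polynomial in `t` then the parallelogram identity holds for `x, y`. -/
lemma parallelogram_of_poly {F : Type*} [NormedAddCommGroup F] [NormedSpace ℝ F] (x y : F)
    (P : Polynomial ℝ) (hP : ∀ t : ℝ, ‖x + t • y‖ ^ (2 : ℝ) = P.eval t) :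
    ‖x + y‖ ^ 2 + ‖x - y‖ ^ 2 = 2 * ‖x‖ ^ 2 + 2 * ‖y‖ ^ 2 := by
  simp only [Real.rpow_two] at hP
  set Q : Polynomial ℝ := P - Polynomial.C (‖y‖ ^ 2) * Polynomial.X ^ 2 with hQ
  have hQe : ∀ t : ℝ, Q.eval t = ‖x + t • y‖ ^ 2 - ‖y‖ ^ 2 * t ^ 2 := by
    intro t
    rw [hQ, hP t]
    simp
  have hx := norm_nonneg x
  have hy := norm_nonneg y
  have hbd : ∀ t : ℝ, 1 ≤ t → |Q.eval t / (Polynomial.X : Polynomial ℝ).eval t| ≤
      ‖x‖ * (‖x‖ + 2 * ‖y‖) := by
    intro t ht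
    rw [Polynomial.eval_X, hQe, abs_div, abs_of_pos (by linarith : (0 : ℝ) < t),
      div_le_iff₀ (by linarith)]
    have h1 : ‖x + t • y‖ ≤ ‖x‖ + t * ‖y‖ := by
      calc ‖x + t • y‖ ≤ ‖x‖ + ‖t • y‖ := norm_add_le _ _
        _ = _ := by rw [norm_smul, Real.norm_of_nonneg (by linarith)]
    have h2 : t * ‖y‖ ≤ ‖x + t • y‖ + ‖x‖ := by
      calc t * ‖y‖ = ‖t • y‖ := by rw [norm_smul, Real.norm_of_nonneg (by linarith)]
        _ = ‖(x + t • y) - x‖ := by congr 1; abel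
        _ ≤ _ := norm_sub_le _ _
    have h3 := norm_nonneg (x + t • y)
    rw [abs_le]
    constructor
    · nlinarith [mul_nonneg hx hy, mul_nonneg (mul_nonneg hx hy) (by linarith : (0 : ℝ) ≤ t - 1),
        mul_nonneg hx hx, mul_nonneg (by linarith : (0 : ℝ) ≤ t) hy,
        mul_nonneg (mul_nonneg hx hx) (by linarith : (0 : ℝ) ≤ t - 1),
        mul_nonneg (by linarith : (0 : ℝ) ≤ ‖x + t • y‖ + ‖x‖ - t * ‖y‖)
          (by nlinarith [mul_nonneg (by linarith : (0 : ℝ) ≤ t) hy] :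
            (0 : ℝ) ≤ ‖x + t • y‖ + t * ‖y‖),
        mul_nonneg hx (by linarith : (0 : ℝ) ≤ ‖x‖ + t * ‖y‖ - ‖x + t • y‖)]
    · nlinarith [mul_nonneg hx hy, mul_nonneg (mul_nonneg hx hy) (by linarith : (0 : ℝ) ≤ t - 1),
        mul_nonneg hx hx, mul_nonneg (by linarith : (0 : ℝ) ≤ t) hy,
        mul_nonneg (mul_nonneg hx hx) (by linarith : (0 : ℝ) ≤ t - 1),
        mul_nonneg (by linarith : (0 : ℝ) ≤ ‖x‖ + t * ‖y‖ - ‖x + t • y‖)
          (by nlinarith [mul_nonneg (by linarith : (0 : ℝ) ≤ t) hy] :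
            (0 : ℝ) ≤ ‖x + t • y‖ + t * ‖y‖),
        mul_nonneg hx (by linarith : (0 : ℝ) ≤ ‖x‖ + t * ‖y‖ - ‖x + t • y‖)]
  have hdeg : Q.degree ≤ 1 := by
    by_contra hlt
    push Not at hlt
    have h1 := Polynomial.abs_div_tendsto_atTop_atTop_of_degree_gt Q Polynomial.X
      (by rw [Polynomial.degree_X]; exact hlt) Polynomial.X_ne_zero
    have h2 := (h1.eventually_gt_atTop (‖x‖ * (‖x‖ + 2 * ‖y‖))).and (eventually_ge_atTop (1 : ℝ))
    obtain ⟨t, ht1, ht2⟩ := h2.exists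
    exact absurd (hbd t ht2) (not_le.mpr ht1)
  have hlin := Polynomial.eq_X_add_C_of_degree_le_one hdeg
  have e : ∀ t : ℝ, ‖x + t • y‖ ^ 2 = ‖y‖ ^ 2 * t ^ 2 + Q.coeff 1 * t + Q.coeff 0 := by
    intro t
    have h1 := hQe t
    rw [hlin] at h1
    simp only [Polynomial.eval_add, Polynomial.eval_mul, Polynomial.eval_C,
      Polynomial.eval_X] at h1
    linarith
  have e0 := e 0
  have e1 := e 1
  have e2 := e (-1)
  rw [zero_smul, add_zero] at e0
  rw [one_smul] at e1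
  rw [neg_one_smul, ← sub_eq_add_neg] at e2
  rw [e1, e2, e0]
  ring

/-! ### James' argument -/

section james

variable {X : Type*} [NormedAddCommGroup X] [NormedSpace ℝ X]

/-- Every family in the unit ball has a norm one coefficient vector with small combination. -/
def Sm (X : Type*) [NormedAddCommGroup X] [NormedSpace ℝ X] (ι : Type) [Fintype ι] (c : ℝ) :
    Prop :=
  ∀ y : ι → X, (∀ i, ‖y i‖ ≤ 1) → ∃ a : ι → ℝ, ∑ i, |a i| = 1 ∧ ‖∑ i, a i • y i‖ ≤ c

lemma Sm.equiv {ι κ : Type} [Fintype ι] [Fintype κ] (e : ι ≃ κ) {c : ℝ} (h : Sm X ι c) :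
    Sm X κ c := by
  intro y hy
  obtain ⟨a, ha1, ha2⟩ := h (fun i => y (e i)) (fun i => hy _)
  refine ⟨fun k => a (e.symm k), ?_, ?_⟩
  · rw [← ha1]
    exact Equiv.sum_comp e.symm (fun i => |a i|)
  · have : ∑ k, a (e.symm k) • y k = ∑ i, a i • y (e i) := by
      rw [← Equiv.sum_comp e]
      simp
    rw [this]
    exact ha2

lemma Sm.prod {ι κ : Type} [Fintype ι] [Fintype κ] {c d : ℝ} (hd : 0 < d) (h : Sm X ι c)
    (h' : Sm X κ d) : Sm X (ι × κ) (c * d) := by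
  intro y hy
  have h1 : ∀ i, ∃ a : κ → ℝ, ∑ k, |a k| = 1 ∧ ‖∑ k, a k • y (i, k)‖ ≤ d :=
    fun i => h' (fun k => y (i, k)) (fun k => hy _)
  choose a ha1 ha2 using h1
  obtain ⟨b, hb1, hb2⟩ := h (fun i => d⁻¹ • ∑ k, a i k • y (i, k)) (by
    intro i
    rw [norm_smul, norm_inv, Real.norm_of_nonneg hd.le, inv_mul_le_iff₀ hd, mul_one]
    exact ha2 i)
  refine ⟨fun q => b q.1 * a q.1 q.2, ?_, ?_⟩
  · rw [Fintype.sum_prod_type]
    simp only [abs_mul]
    simp only [← Finset.mul_sum, ha1, mul_one]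
    exact hb1
  · rw [Fintype.sum_prod_type]
    have h2 : ∑ i, ∑ k, (b i * a i k) • y (i, k) =
        d • ∑ i, b i • (d⁻¹ • ∑ k, a i k • y (i, k)) := by
      rw [Finset.smul_sum]
      refine Finset.sum_congr rfl fun i _ => ?_
      rw [smul_comm (b i) d⁻¹, smul_smul, mul_inv_cancel₀ hd.ne', one_smul, Finset.smul_sum]
      exact Finset.sum_congr rfl fun k _ => by rw [smul_smul]
    rw [h2, norm_smul, Real.norm_of_nonneg hd.le, mul_comm c d]
    exact mul_le_mul_of_nonneg_left hb2 hd.le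

/-- Uniform copies of `ℓ_1^m` give almost isometric copies. -/
theorem james (K : ℝ) (hK : 0 < K)
    (hX : ∀ m : ℕ, ∃ x : Fin m → X, (∀ i, ‖x i‖ ≤ 1) ∧
      ∀ a : Fin m → ℝ, K * ∑ i, |a i| ≤ ‖∑ i, a i • x i‖) :
    AlmostContainsSums 1 (fun _ => ℝ) X := by
  intro m ε hε
  set c : ℝ := 1 / (1 + ε) with hc
  have hc0 : 0 < c := by positivity
  have hc1 : c < 1 := by rw [hc, div_lt_one (by positivity)]; linarith
  obtain ⟨y, hy, hya⟩ : ∃ y : Fin m → X, (∀ i, ‖y i‖ ≤ 1) ∧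
      ∀ a : Fin m → ℝ, c * ∑ i, |a i| ≤ ‖∑ i, a i • y i‖ := by
    by_contra hno
    push Not at hno
    have hS : Sm X (Fin m) c := by
      intro y hy
      obtain ⟨a, ha⟩ := hno y hy
      set s := ∑ i, |a i| with hs
      have hs0 : 0 < s := by
        by_contra hle
        push Not at hle
        have h1 : 0 ≤ s := Finset.sum_nonneg fun i _ => abs_nonneg _
        have h2 : s = 0 := le_antisymm hle h1
        rw [h2, mul_zero] at ha
        exact absurd ha (not_lt.mpr (norm_nonneg _))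
      refine ⟨fun i => s⁻¹ * a i, ?_, ?_⟩
      · simp only [abs_mul, abs_of_pos (inv_pos.mpr hs0)]
        rw [← Finset.mul_sum, ← hs, inv_mul_cancel₀ hs0.ne']
      · have : ∑ i, (s⁻¹ * a i) • y i = s⁻¹ • ∑ i, a i • y i := by
          rw [Finset.smul_sum]
          exact Finset.sum_congr rfl fun i _ => by rw [smul_smul]
        rw [this, norm_smul, Real.norm_of_nonneg (inv_pos.mpr hs0).le, inv_mul_le_iff₀ hs0]
        linarith
    have hk : ∀ k : ℕ, ∃ n : ℕ, Sm X (Fin n) (c ^ k) := by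
      intro k
      induction k with
      | zero =>
        refine ⟨1, fun y hy => ⟨fun _ => 1, by simp, ?_⟩⟩
        simpa using hy 0
      | succ k ih =>
        obtain ⟨n, hn⟩ := ih
        refine ⟨n * m, ?_⟩
        rw [pow_succ]
        exact (hn.prod hc0 hS).equiv finProdFinEquiv
    obtain ⟨k, hk1⟩ := exists_pow_lt_of_lt_one hK hc1
    obtain ⟨n, hn⟩ := hk k
    obtain ⟨x, hx, hxa⟩ := hX n
    obtain ⟨a, ha1, ha2⟩ := hn x hx
    have := hxa a
    rw [ha1, mul_one] at this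
    linarith
  let J0 : (Fin m → ℝ) →ₗ[ℝ] X := (1 + ε) • (Fintype.linearCombination ℝ y)
  refine ⟨J0, ?_⟩
  intro z
  have hJ : ‖J0 z‖ = (1 + ε) * ‖∑ i, z i • y i‖ := by
    simp only [J0, LinearMap.smul_apply, Fintype.linearCombination_apply]
    rw [norm_smul, Real.norm_of_nonneg (by linarith)]
  rw [hJ]
  simp only [Real.rpow_one, div_one, Real.norm_eq_abs]
  constructor
  · have h1 := hya z
    have h2 : (1 + ε) * (c * ∑ i, |z i|) = ∑ i, |z i| := by
      rw [hc]; field_simp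
    calc ∑ i, |z i| = (1 + ε) * (c * ∑ i, |z i|) := h2.symm
      _ ≤ _ := mul_le_mul_of_nonneg_left h1 (by linarith)
  · apply mul_le_mul_of_nonneg_left _ (by linarith)
    calc ‖∑ i, z i • y i‖ ≤ ∑ i, ‖z i • y i‖ := norm_sum_le _ _
      _ ≤ ∑ i, |z i| := by
        refine Finset.sum_le_sum fun i _ => ?_
        rw [norm_smul, Real.norm_eq_abs]
        exact mul_le_of_le_one_right (abs_nonneg _) (hy i)

end james

end Pool.Agent.TH857.EucFin
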