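import Mathlib
import Pool.Agent.TH109.Q.Defs

/-!
# QA-2 (job 1967, written by helper857): stays are Lipschitz and persist among small states
-/

set_option autoImplicit false
open scoped Classical

namespace Pool.Agent.TH857.J1967

open Pool.Agent.Helper943.LM (UA wpow wpow_length lenS)
open Pool.Agent.TH109.M Pool.Agent.TH109.Q

variable {G : Type} [Group G]

theorem live_st (U : UA G) {w : List U.A} (hw : w ∈ U.L) (t : ℕ) : U.live (st U w t) := by
  have h : w.take t ++ w.drop t ∈ U.L := by rw [List.take_append_drop]; exact hw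
  exact U.live_of_mem h

theorem take_split {α : Type} (w : List α) {x y : ℕ} (h : x ≤ y) :
    w.take y = w.take x ++ (w.take y).drop x := by
  have h1 := List.take_append_drop x (w.take y)
  rw [List.take_take, min_eq_left h] at h1
  exact h1.symm

theorem st_add (U : UA G) (w : List U.A) {x y : ℕ} (h : x ≤ y) :
    U.run (st U w x) ((w.take y).drop x) = st U w y := by
  unfold st
  rw [← U.run_append, ← take_split w h]

theorem pt_add (U : UA G) (w : List U.A) {x y : ℕ} (h : x ≤ y) :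
    pt U w y = pt U w x * U.ev ((w.take y).drop x) := by
  unfold pt
  rw [← U.ev_append, ← take_split w h]

theorem cn_path (U : UA G) (w : List U.A) {x y : ℕ} (h : x ≤ y) :
    Cn U (st U w x) (st U w y) := ⟨_, st_add U w h⟩

theorem sy_finite (U : UA G) : (Sy U).Finite := by
  have : Finite U.A := U.finA
  have h1 : (Set.range U.mu).Finite := Set.finite_range _
  have h2 : (Set.range fun a => (U.mu a)⁻¹).Finite := Set.finite_range _
  refine (h1.union h2).subset ?_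
  rintro x (⟨a, ha⟩ | ⟨a, ha⟩)
  · exact Or.inl ⟨a, ha⟩
  · exact Or.inr ⟨a, ha⟩

/-- times between two times of the stay belong to the stay -/
theorem tm_between (U : UA G) {ℓ : ℕ} (hQ : LoopQ U ℓ) {g e : G} {p q t : ℕ}
    (hp : p ∈ TM U ℓ g e) (hq : q ∈ TM U ℓ g e) (h1 : p ≤ t) (h2 : t ≤ q) :
    t ∈ TM U ℓ g e := by
  have h := hQ.tm_int g e ⟨p, hp⟩
  rw [h]
  exact ⟨((h p).1 hp).1.trans h1, h2.trans ((h q).1 hq).2⟩

theorem ta_mem (U : UA G) {ℓ : ℕ} (hQ : LoopQ U ℓ) {g e : G} (hn : (TM U ℓ g e).Nonempty) :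
    Ta U ℓ g e ∈ TM U ℓ g e := by
  have h := hQ.tm_int g e hn
  obtain ⟨t, ht⟩ := hn
  have h1 := (h t).1 ht
  rw [h]
  exact ⟨le_rfl, h1.1.trans h1.2⟩

theorem tb_mem (U : UA G) {ℓ : ℕ} (hQ : LoopQ U ℓ) {g e : G} (hn : (TM U ℓ g e).Nonempty) :
    Tb U ℓ g e ∈ TM U ℓ g e := by
  have h := hQ.tm_int g e hn
  obtain ⟨t, ht⟩ := hn
  have h1 := (h t).1 ht
  rw [h]
  exact ⟨h1.1.trans h1.2, le_rfl⟩

/-- the pigeonhole argument -/
theorem key (U : UA G) (D : Set G) (hD : D.Finite) (M ℓ : ℕ)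
    (hM : M = Nat.card (U.S × U.S × D)) (hl : M.factorial ∣ ℓ) (hQ : LoopQ U ℓ)
    {g e : G} {w' : List U.A} (hw' : w' ∈ U.L)
    (hd : ∀ t : ℕ, (pt U (nf U g) t)⁻¹ * pt U w' t ∈ D) (p : ℕ)
    (hp : p ∈ TM U ℓ g e) (hpM : p + M ∈ TM U ℓ g e) (hlen' : p + M ≤ w'.length) :
    ∃ t, p ≤ t ∧ t ≤ p + M ∧ ∃ Z : List U.A, Z.length = ℓ ∧
      U.run (st U w' t) Z = st U w' t ∧ pt U w' t * U.ev Z * (pt U w' t)⁻¹ = e := by
  have : Finite U.S := U.finS
  have : Finite D := hD.to_subtype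
  obtain ⟨w, hwdef⟩ : ∃ w, w = nf U g := ⟨_, rfl⟩
  have hw : w ∈ U.L := by rw [hwdef]; exact nf_mem U g
  rw [← hwdef] at hd
  let f : Fin (M + 1) → U.S × U.S × D := fun i =>
    (st U w (p + i), st U w' (p + i), ⟨(pt U w (p + i))⁻¹ * pt U w' (p + i), hd _⟩)
  have hninj : ¬ Function.Injective f := by
    intro hinj
    have h1 := Nat.card_le_card_of_injective f hinj
    rw [Nat.card_fin, ← hM] at h1
    omega
  rw [Function.Injective] at hninj
  push Not at hninj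
  obtain ⟨i0, j0, hij0, hne0⟩ := hninj
  obtain ⟨i, j, hi, hj, hlt, hs, hs', hδ⟩ : ∃ i j : ℕ, i ≤ M ∧ j ≤ M ∧ i < j ∧
      st U w (p + i) = st U w (p + j) ∧ st U w' (p + i) = st U w' (p + j) ∧
      (pt U w (p + i))⁻¹ * pt U w' (p + i) = (pt U w (p + j))⁻¹ * pt U w' (p + j) := by
    have a1 : st U w (p + i0) = st U w (p + j0) := congrArg Prod.fst hij0
    have a2 : st U w' (p + i0) = st U w' (p + j0) := congrArg (fun q => q.2.1) hij0
    have a3 : (pt U w (p + i0))⁻¹ * pt U w' (p + i0) =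
        (pt U w (p + j0))⁻¹ * pt U w' (p + j0) :=
      congrArg (fun q : U.S × U.S × D => (q.2.2 : G)) hij0
    have hi := i0.2
    have hj := j0.2
    rcases lt_or_gt_of_ne (fun h => hne0 (Fin.ext h) : (i0 : ℕ) ≠ j0) with h | h
    · exact ⟨i0, j0, by omega, by omega, h, a1, a2, a3⟩
    · exact ⟨j0, i0, by omega, by omega, h, a1.symm, a2.symm, a3.symm⟩
  obtain ⟨t2, ht2⟩ : ∃ t, t = p + i := ⟨_, rfl⟩
  obtain ⟨t3, ht3⟩ : ∃ t, t = p + j := ⟨_, rfl⟩
  rw [← ht2, ← ht3] at hs hs' hδ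
  have h23 : t2 < t3 := by omega
  -- the exponent
  have hjd : t3 - t2 ∣ ℓ :=
    (Nat.dvd_factorial (by omega) (by omega : t3 - t2 ≤ M)).trans hl
  obtain ⟨n, hn⟩ := hjd
  -- the closed pieces
  have hmem2 : t2 ∈ TM U ℓ g e := tm_between U hQ hp hpM (by omega) (by omega)
  have hlw : t3 ≤ w.length := by
    have h := hpM.1
    rw [len, ← hwdef] at h
    omega
  have hrun : U.run (st U w t2) ((w.take t3).drop t2) = st U w t2 := by
    rw [st_add U w h23.le, hs]
  have hrun' : U.run (st U w' t2) ((w'.take t3).drop t2) = st U w' t2 := by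
    rw [st_add U w' h23.le, hs']
  have hzl : ((w.take t3).drop t2).length = t3 - t2 := by
    rw [List.length_drop, List.length_take, min_eq_left hlw]
  have hzl' : ((w'.take t3).drop t2).length = t3 - t2 := by
    rw [List.length_drop, List.length_take, min_eq_left (by omega)]
  obtain ⟨-, hsm, hcy, hEV⟩ := hmem2
  rw [← hwdef] at hsm hcy hEV
  have hlive := live_st U hw t2
  have hlp : lp U ℓ (st U w t2) = wpow ((w.take t3).drop t2) n := by
    refine hQ.star _ hlive hsm _ _ (hQ.lp_run _ hlive hsm hcy) (U.run_wpow hrun n) ?_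
    rw [hQ.lp_len _ hlive hsm hcy, wpow_length, hzl, hn, mul_comm]
  refine ⟨t2, by omega, by omega, wpow ((w'.take t3).drop t2) n, ?_, U.run_wpow hrun' n, ?_⟩
  · rw [wpow_length, hzl', hn, mul_comm]
  · rw [← hEV]
    unfold EV
    rw [hlp, U.ev_wpow, U.ev_wpow]
    have p1 := pt_add U w h23.le
    have p2 := pt_add U w' h23.le
    generalize U.ev ((w.take t3).drop t2) = z at *
    generalize U.ev ((w'.take t3).drop t2) = z' at *
    rw [p1, p2] at hδ
    generalize pt U w t2 = P at *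
    generalize pt U w' t2 = P' at *
    have h2 : z' = P'⁻¹ * P * z * (P⁻¹ * P') := by rw [hδ]; group
    have h3 : z' = (P'⁻¹ * P) * z * (P'⁻¹ * P)⁻¹ := by rw [h2]; group
    rw [h3, conj_pow]
    group

/-- a time with a closed word of the right translation belongs to the stay -/
theorem into (U : UA G) {ℓ : ℕ} (hQ : LoopQ U ℓ) {g e : G} {a t : ℕ} (ha : a ∈ TM U ℓ g e)
    (ht : t ≤ len U g) {Z : List U.A} (hZ : Z.length = ℓ)
    (hr : U.run (st U (nf U g) t) Z = st U (nf U g) t)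
    (he : pt U (nf U g) t * U.ev Z * (pt U (nf U g) t)⁻¹ = e) : t ∈ TM U ℓ g e := by
  have hw := nf_mem U g
  have hlive := live_st U hw a
  obtain ⟨-, hsm, hcy, hEV⟩ := id ha
  have h1 := hQ.lp_run _ hlive hsm hcy
  have h2 := hQ.lp_len _ hlive hsm hcy
  have hpos := hQ.pos
  rcases le_total t a with h | h
  · have hcn := hQ.inj _ hw t a h Z (lp U ℓ (st U (nf U g) a))
      (by intro h0; rw [h0, List.length_nil] at hZ; omega) hr h1 (by rw [hZ, h2])
      (by rw [he, ← hEV]; rfl)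
    exact hQ.tm_class g e a t ha ht (cn_path U _ h) hcn
  · have hcn := hQ.inj _ hw a t h (lp U ℓ (st U (nf U g) a)) Z
      (by intro h0; rw [h0, List.length_nil] at h2; omega) h1 hr (by rw [hZ, h2])
      (by rw [he, ← hEV]; rfl)
    exact hQ.tm_class g e a t ha ht hcn (cn_path U _ h)

/-- a small time with a closed word of the right translation is in the stay -/
theorem into' (U : UA G) {ℓ : ℕ} (hQ : LoopQ U ℓ) {g e : G} {t : ℕ}
    (hsm : ¬ Big U (st U (nf U g) t))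
    (ht : t ≤ len U g) {Z : List U.A} (hZ : Z.length = ℓ)
    (hr : U.run (st U (nf U g) t) Z = st U (nf U g) t)
    (he : pt U (nf U g) t * U.ev Z * (pt U (nf U g) t)⁻¹ = e) : t ∈ TM U ℓ g e := by
  have hlive := live_st U (nf_mem U g) t
  have hpos := hQ.pos
  have hcy : Cy U (st U (nf U g) t) :=
    ⟨Z, by intro h0; rw [h0, List.length_nil] at hZ; omega, hr⟩
  refine ⟨ht, hsm, hcy, ?_⟩
  have hlp : lp U ℓ (st U (nf U g) t) = Z :=
    hQ.star _ hlive hsm _ _ (hQ.lp_run _ hlive hsm hcy) hr (by rw [hQ.lp_len _ hlive hsm hcy, hZ])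
  unfold EV
  rw [hlp]
  exact he

theorem lip (U : UA G) : ∃ ℓ0 : ℕ, 0 < ℓ0 ∧ ∀ ℓ : ℕ, ℓ0 ∣ ℓ → LoopQ U ℓ →
    ∃ C : ℕ, ∀ g, ∀ x ∈ Sy U,
      len U (g * x) ≤ len U g + C ∧
      (∀ e, (TM U ℓ g e).Nonempty → (TM U ℓ (g * x) e).Nonempty →
        Ta U ℓ g e + C ≤ Tb U ℓ g e →
        Ta U ℓ (g * x) e ≤ Ta U ℓ g e + C ∧ Tb U ℓ g e ≤ Tb U ℓ (g * x) e + C) ∧
      (∀ e p q, p ∈ TM U ℓ g e → q ∈ TM U ℓ g e → p + 2 * C ≤ q →
        ¬ Big U (st U (nf U (g * x)) p) →
        p + C ∈ TM U ℓ (g * x) e ∧ q - C ∈ TM U ℓ (g * x) e) := by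
  have hSy : Finite (Sy U) := (sy_finite U).to_subtype
  choose D hD hft using fun x : Sy U => U.ft' (x : G)
  choose Ca hCa using fun x : Sy U => lenS U (x : G)
  choose Cb hCb using fun x : Sy U => lenS U (x : G)⁻¹
  obtain ⟨Ca0, hCa0⟩ := (Set.finite_range Ca).bddAbove
  obtain ⟨Cb0, hCb0⟩ := (Set.finite_range Cb).bddAbove
  have hDD : (⋃ x, D x).Finite := Set.finite_iUnion hD
  obtain ⟨M, hM⟩ : ∃ M : ℕ, M = Nat.card (U.S × U.S × (⋃ x, D x : Set G)) := ⟨_, rfl⟩
  refine ⟨M.factorial, Nat.factorial_pos _, fun ℓ hl hQ => ⟨M + Ca0 + Cb0, ?_⟩⟩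
  intro g x hx
  obtain ⟨w, hwd⟩ : ∃ w, w = nf U g := ⟨_, rfl⟩
  obtain ⟨w', hwd'⟩ : ∃ w', w' = nf U (g * x) := ⟨_, rfl⟩
  have hw : w ∈ U.L := by rw [hwd]; exact nf_mem U g
  have hw' : w' ∈ U.L := by rw [hwd']; exact nf_mem U _
  have hev : U.ev w * x = U.ev w' := by rw [hwd, hwd', nf_ev, nf_ev]
  have hlen1 : w'.length ≤ w.length + Ca0 := by
    have h1 := hCa ⟨x, hx⟩ w hw w' hw' hev
    have h2 := hCa0 (Set.mem_range_self (⟨x, hx⟩ : Sy U))
    omega
  have hlen2 : w.length ≤ w'.length + Cb0 := by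
    have h1 := hCb ⟨x, hx⟩ w' hw' w hw (by rw [← hev]; simp)
    have h2 := hCb0 (Set.mem_range_self (⟨x, hx⟩ : Sy U))
    omega
  have hd : ∀ t : ℕ, (pt U (nf U g) t)⁻¹ * pt U w' t ∈ (⋃ x, D x : Set G) := fun t =>
    Set.mem_iUnion.2 ⟨⟨x, hx⟩, by
      rw [← hwd]; exact hft ⟨x, hx⟩ w hw w' hw' hev t⟩
  have hlg : len U g = w.length := by rw [len, hwd]
  have hlg' : len U (g * x) = w'.length := by rw [len, hwd']
  have K : ∀ e p, p ∈ TM U ℓ g e → p + M ∈ TM U ℓ g e → p + M ≤ w'.length →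
      ∃ t, p ≤ t ∧ t ≤ p + M ∧ ∃ Z : List U.A, Z.length = ℓ ∧
        U.run (st U (nf U (g * x)) t) Z = st U (nf U (g * x)) t ∧
        pt U (nf U (g * x)) t * U.ev Z * (pt U (nf U (g * x)) t)⁻¹ = e := by
    intro e p h1 h2 h3
    rw [← hwd']
    exact key U _ hDD M ℓ hM hl hQ hw' hd p h1 h2 h3
  refine ⟨by omega, ?_, ?_⟩
  · intro e hn hn' hlong
    have ha := ta_mem U hQ hn
    have hb := tb_mem U hQ hn
    have ha' := ta_mem U hQ hn'
    have hb' := tb_mem U hQ hn'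
    have hbl : Tb U ℓ g e ≤ w.length := hlg ▸ hb.1
    have hal' : Ta U ℓ (g * x) e ≤ w'.length := hlg' ▸ ha'.1
    have hint := hQ.tm_int (g * x) e hn'
    constructor
    · by_cases hc : Ta U ℓ g e + M ≤ w'.length
      · obtain ⟨t, ht1, ht2, Z, hZ, hr, he⟩ := K e (Ta U ℓ g e) ha
          (tm_between U hQ ha hb (by omega) (by omega)) hc
        have ht := into U hQ ha' (by omega) hZ hr he
        have := ((hint t).1 ht).1
        omega
      · omega
    · obtain ⟨P, hP⟩ : ∃ P, P = min (Tb U ℓ g e) w'.length - M := ⟨_, rfl⟩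
      obtain ⟨t, ht1, ht2, Z, hZ, hr, he⟩ := K e P
        (tm_between U hQ ha hb (by omega) (by omega))
        (tm_between U hQ ha hb (by omega) (by omega)) (by omega)
      have ht := into U hQ ha' (by omega) hZ hr he
      have := ((hint t).1 ht).2
      omega
  · intro e p q hp hq hpq hsm
    have hql : q ≤ w.length := hlg ▸ hq.1
    obtain ⟨t, ht1, ht2, Z, hZ, hr, he⟩ := K e p hp
      (tm_between U hQ hp hq (by omega) (by omega)) (by omega)
    have ht := into' U hQ (hQ.small_fwd _ p t ht1 hsm) (by omega) hZ hr he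
    obtain ⟨P, hP⟩ : ∃ P, P = min q w'.length - M := ⟨_, rfl⟩
    obtain ⟨t', ht1', ht2', Z', hZ', hr', he'⟩ := K e P
      (tm_between U hQ hp hq (by omega) (by omega))
      (tm_between U hQ hp hq (by omega) (by omega)) (by omega)
    have ht' := into' U hQ (hQ.small_fwd _ p t' (by omega) hsm) (by omega) hZ' hr' he'
    exact ⟨tm_between U hQ ht ht' (by omega) (by omega),
      tm_between U hQ ht ht' (by omega) (by omega)⟩

end Pool.Agent.TH857.J1967
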