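import Mathlib
import Pool.Agent.H921R2.TatePole.Main
import Pool.Agent.H921R2.TatePole.BaseChange
import Pool.Agent.TH444.ML.Defs

/-!
# The sum of the inverse norms of the totally split primes diverges
-/

set_option autoImplicit false

open Filter Topology NumberField IsDedekindDomain Pool.Agent.H921R2.TatePole

namespace Pool.Agent.TH857.J3095

section
variable (M : Type) [Field M] [NumberField M]

/-- the sum over the primes of degree one diverges -/
lemma deg1_div : ¬ Summable (fun v : {v : HeightOneSpectrum (𝓞 M) // deg v = 1} =>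
    (1 : ℝ) / (Ideal.absNorm v.1.asIdeal)) := by
  classical
  intro hs
  set g : HeightOneSpectrum (𝓞 M) → ℝ := fun v => if deg v = 1 then (1 : ℝ) / (nm v) else 0
    with hg
  have h1 : Summable g := by
    have h2 : (fun v : {v : HeightOneSpectrum (𝓞 M) // deg v = 1} =>
      (1 : ℝ) / (Ideal.absNorm v.1.asIdeal)) =
      (fun v : HeightOneSpectrum (𝓞 M) => (1 : ℝ) / (nm v)) ∘
        ((↑) : ({v : HeightOneSpectrum (𝓞 M) | deg v = 1} : Set _) → _) := rfl
    rw [h2] at hs
    have hs2 := (summable_subtype_iff_indicator (f := fun v : HeightOneSpectrum (𝓞 M) =>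
      (1 : ℝ) / (nm v)) (s := {v : HeightOneSpectrum (𝓞 M) | deg v = 1})).1 hs
    refine hs2.congr fun v => ?_
    rw [Set.indicator_apply]
    rfl
  have h2 := summable_fiber h1
  have h3 : ∀ p : Nat.Primes, ∑ v : {v : HeightOneSpectrum (𝓞 M) // below v = p}, g v =
      (R M p : ℝ) * ((p : ℕ) : ℝ)⁻¹ := by
    intro p
    unfold R
    rw [Finset.card_filter, Nat.cast_sum, Finset.sum_mul]
    refine Finset.sum_congr rfl fun v _ => ?_
    simp only [hg]
    split_ifs with h
    · have h4 := (nm_eq v.1).1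
      rw [h, v.2, pow_one] at h4
      rw [h4]
      simp
    · simp
  have h4 : Summable (fun p : Nat.Primes => (R M p : ℝ) * ((p : ℕ) : ℝ)⁻¹) := h2.congr h3
  set A : ℝ := ∑' p : Nat.Primes, (R M p : ℝ) * ((p : ℕ) : ℝ)⁻¹ with hA
  obtain ⟨C, hC⟩ := sum_R_bdd (K := M)
  have h5 : ∀ᶠ x : ℝ in 𝓝[>] 1, W x ≤ A + C := by
    filter_upwards [hC, self_mem_nhdsWithin] with x h6 hx
    have hx1 : 1 < x := hx
    have hs1 : Summable (fun p : Nat.Primes => (R M p : ℝ) * w x p) :=
      bddmul_summable hx1 (C := Module.finrank ℚ M) fun p => by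
        rw [abs_of_nonneg (by positivity)]; exact_mod_cast R_le p
    have e : ∀ p : Nat.Primes, ((R M p : ℝ) - 1) * w x p = (R M p : ℝ) * w x p - w x p :=
      fun p => by ring
    rw [tsum_congr e, Summable.tsum_sub hs1 (w_summable hx1)] at h6
    have h7 : W x = ∑' p, w x p := rfl
    have h8 : ∑' p : Nat.Primes, (R M p : ℝ) * w x p ≤ A := by
      refine Summable.tsum_le_tsum (fun p => ?_) hs1 h4
      refine mul_le_mul_of_nonneg_left ?_ (by positivity)
      unfold w
      rw [← Real.rpow_neg_one]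
      refine Real.rpow_le_rpow_of_exponent_le ?_ (by linarith)
      exact_mod_cast p.2.one_lt.le
    have h9 := (abs_le.1 h6).1
    linarith
  have h6 : ∀ᶠ x : ℝ in 𝓝[>] 1, A + C < W x := W_tendsto.eventually (eventually_gt_atTop _)
  obtain ⟨x, hx⟩ := (h5.and h6).exists
  exact absurd hx.1 (not_le.2 hx.2)

end

section
variable (K M : Type) [Field K] [NumberField K] [Field M] [NumberField M] [Algebra K M]

lemma ram_finite : {v : HeightOneSpectrum (𝓞 M) |
    ¬ Algebra.IsUnramifiedAt (𝓞 K) v.asIdeal}.Finite := by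
  have h := Ideal.finite_factors (differentIdeal_ne_bot (A := 𝓞 K) (B := 𝓞 M))
  refine h.subset fun v hv => ?_
  exact dvd_differentIdeal_iff.2 hv

lemma split [IsGalois K M] (v : HeightOneSpectrum (𝓞 M)) (h1 : deg v = 1)
    (h2 : Algebra.IsUnramifiedAt (𝓞 K) v.asIdeal) :
    (v.asIdeal.under (𝓞 K)).IsPrime ∧ v.asIdeal.under (𝓞 K) ≠ ⊥ ∧
      Set.ncard ((v.asIdeal.under (𝓞 K)).primesOver (𝓞 M)) = Module.finrank K M ∧
      Ideal.absNorm (v.asIdeal.under (𝓞 K)) = Ideal.absNorm v.asIdeal := by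
  set p := v.asIdeal.under (𝓞 K) with hp
  have hPp : v.asIdeal.IsPrime := v.isPrime
  have hprime : p.IsPrime := inferInstance
  have hne : p ≠ ⊥ := by
    rw [hp]
    exact mt Ideal.eq_bot_of_comap_eq_bot v.ne_bot
  have hmax : p.IsMaximal := hprime.isMaximal hne
  have hPm : v.asIdeal.IsMaximal := v.isPrime.isMaximal v.ne_bot
  have hover : v.asIdeal.LiesOver p := inferInstance
  have e1 := Ideal.ncard_primesOver_mul_ramificationIdxIn_mul_inertiaDegIn
    p (𝓞 M) Gal(M/K)
  have e2 : Nat.card Gal(M/K) = Module.finrank K M := IsGalois.card_aut_eq_finrank K M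
  have e3 : p.ramificationIdxIn (𝓞 M) = 1 := by
    rw [Ideal.ramificationIdxIn_eq_ramificationIdx p v.asIdeal Gal(M/K)]
    exact Ideal.ramificationIdx_eq_one_iff.2 h2
  have e4 := Ideal.absNorm_eq_pow_inertiaDeg'_of_liesOver v.asIdeal p hprime hne
  have e5 := (nm_eq v).1
  rw [h1, pow_one] at e5
  have e6 : (Ideal.absNorm v.asIdeal).Prime := by
    have : Ideal.absNorm v.asIdeal = (below v : ℕ) := e5
    rw [this]
    exact (below v).2
  have e7 := (Nat.Prime.pow_eq_iff e6).1 e4.symm
  have e8 : p.inertiaDegIn (𝓞 M) = 1 := by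
    rw [Ideal.inertiaDegIn_eq_inertiaDeg p v.asIdeal Gal(M/K), ← Ideal.inertiaDeg'_eq_inertiaDeg p]
    exact e7.2
  refine ⟨hprime, hne, ?_, e7.1⟩
  rw [e3, e8, e2] at e1
  simpa using e1

end

theorem splitSum : Pool.Agent.TH444.ML.SplitSum := by
  classical
  intro K M _ _ _ _ _ _ hs
  apply deg1_div M
  set T := {p : Ideal (𝓞 K) // p.IsPrime ∧ p ≠ ⊥ ∧
      Set.ncard (p.primesOver (𝓞 M)) = Module.finrank K M} with hT
  set gg : T → ℝ := fun p => (1 : ℝ) / Ideal.absNorm p.1 with hgg
  have hfin : {v : {v : HeightOneSpectrum (𝓞 M) // deg v = 1} |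
      ¬ Algebra.IsUnramifiedAt (𝓞 K) v.1.asIdeal}.Finite :=
    (ram_finite K M).preimage (Subtype.val_injective.injOn)
  rw [← hfin.summable_compl_iff]
  set U := (({v : {v : HeightOneSpectrum (𝓞 M) // deg v = 1} |
      ¬ Algebra.IsUnramifiedAt (𝓞 K) v.1.asIdeal})ᶜ : Set _) with hU
  have hun : ∀ u : U, Algebra.IsUnramifiedAt (𝓞 K) u.1.1.asIdeal := fun u =>
    not_not.1 u.2
  let φ : U → T := fun u => ⟨u.1.1.asIdeal.under (𝓞 K), (split K M u.1.1 u.1.2 (hun u)).1,
    (split K M u.1.1 u.1.2 (hun u)).2.1, (split K M u.1.1 u.1.2 (hun u)).2.2.1⟩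
  have hφ : ∀ u : U, ((fun v : {v : HeightOneSpectrum (𝓞 M) // deg v = 1} =>
      (1 : ℝ) / (Ideal.absNorm v.1.asIdeal)) ∘ (↑)) u = gg (φ u) := by
    intro u
    simp only [hgg, φ, Function.comp]
    rw [(split K M u.1.1 u.1.2 (hun u)).2.2.2]
  have hs' : Summable gg := hs
  have hgn : ∀ p, 0 ≤ gg p := fun p => by simp only [hgg]; positivity
  refine summable_of_sum_le (c := (Module.finrank K M : ℝ) * ∑' p, gg p) (fun u => ?_) (fun s => ?_)
  · rw [hφ]; exact hgn _
  · rw [Finset.sum_congr rfl (fun u _ => hφ u), Finset.sum_comp gg φ]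
    have h1 : ∀ b ∈ s.image φ, (s.filter (fun a => φ a = b)).card • gg b ≤
        (Module.finrank K M : ℝ) * gg b := by
      intro b _
      rw [nsmul_eq_mul]
      refine mul_le_mul_of_nonneg_right ?_ (hgn b)
      have h2 : (s.filter (fun a => φ a = b)).card ≤ Set.ncard (b.1.primesOver (𝓞 M)) := by
        have hm : b.1.IsMaximal := by
          have := b.2.1
          exact this.isMaximal b.2.2.1
        rw [← Set.ncard_coe_finset]
        refine Set.ncard_le_ncard_of_injOn (fun a : U => a.1.1.asIdeal) ?_ ?_ ?_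
        · intro a ha
          rw [Finset.mem_coe, Finset.mem_filter] at ha
          have h3 : a.1.1.asIdeal.under (𝓞 K) = b.1 := congrArg Subtype.val ha.2
          refine ⟨a.1.1.isPrime, ⟨h3.symm⟩⟩
        · intro a _ a' _ h
          exact Subtype.ext (Subtype.ext (HeightOneSpectrum.ext h))
        · by_contra hinf
          have h4 := Set.Infinite.ncard hinf
          rw [b.2.2.2] at h4
          exact (Module.finrank_pos (R := K) (M := M)).ne' h4
      rw [b.2.2.2] at h2
      exact_mod_cast h2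
    refine (Finset.sum_le_sum h1).trans ?_
    rw [← Finset.mul_sum]
    exact mul_le_mul_of_nonneg_left (hs'.sum_le_tsum _ (fun p _ => hgn p)) (by positivity)

end Pool.Agent.TH857.J3095
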