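import Pool.Agent.TH597.IV.Stm
import Pool.Agent.H721R2.Quart.A1

set_option autoImplicit false

/-!
Job 3644 (IV_MCONST): a conserved quadratic form at density points (first variation of the length).
-/

namespace Pool.Agent.TH857.IV_MCONST

open MeasureTheory Set Filter Topology
open scoped InnerProductSpace
open Pool.Agent.TH597.IV

section
variable {E Z : Type*} [NormedAddCommGroup E] [InnerProductSpace ℝ E]
  [NormedAddCommGroup Z] [NormedSpace ℝ Z] (F : Fam E Z)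

/-- the length of the trajectory -/
noncomputable def S (z : (E →L[ℝ] E) × Z) : ℝ := ∑ k ∈ Finset.range F.n, F.τ k z

/-- the interior term of the first variation -/
noncomputable def mp (B : E →L[ℝ] E) (z : (E →L[ℝ] E) × Z) : ℝ :=
  ∑ k ∈ Finset.range F.n, ⟪F.e k z, B (F.Δ k z)⟫_ℝ

/-- the boundary term of the first variation -/
noncomputable def G (ζ z : (E →L[ℝ] E) × Z) : ℝ :=
  ⟪F.e F.n z, z.1 (fderiv ℝ (F.x F.n) z ζ)⟫_ℝ - ⟪F.e 0 z, z.1 (fderiv ℝ (F.x 0) z ζ)⟫_ℝ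

variable {F}

lemma dx {k : ℕ} (hk : k ≤ F.n) {z : (E →L[ℝ] E) × Z} (hz : z ∈ F.U) :
    DifferentiableAt ℝ (F.x k) z := (F.cx k hk z hz).differentiableAt (by norm_num)

lemma de {k : ℕ} (hk : k ≤ F.n) {z : (E →L[ℝ] E) × Z} (hz : z ∈ F.U) :
    DifferentiableAt ℝ (F.e k) z := (F.ce k hk z hz).differentiableAt (by norm_num)

lemma dτ {k : ℕ} (hk : k < F.n) {z : (E →L[ℝ] E) × Z} (hz : z ∈ F.U) :
    DifferentiableAt ℝ (F.τ k) z := (F.cτ k hk z hz).differentiableAt (by norm_num)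

lemma dΔ {k : ℕ} (hk : k < F.n) {z : (E →L[ℝ] E) × Z} (hz : z ∈ F.U) :
    DifferentiableAt ℝ (F.Δ k) z := (dx hk hz).sub (dx hk.le hz)

lemma fderiv_Δ {k : ℕ} (hk : k < F.n) {z : (E →L[ℝ] E) × Z} (hz : z ∈ F.U)
    (ζ : (E →L[ℝ] E) × Z) :
    fderiv ℝ (F.Δ k) z ζ = fderiv ℝ (F.x (k + 1)) z ζ - fderiv ℝ (F.x k) z ζ := by
  have h : HasFDerivAt (F.Δ k) (fderiv ℝ (F.x (k + 1)) z - fderiv ℝ (F.x k) z) z :=
    (dx hk hz).hasFDerivAt.sub (dx hk.le hz).hasFDerivAt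
  rw [h.fderiv]; rfl

lemma tau_fderiv {k : ℕ} (hk : k < F.n) {z : (E →L[ℝ] E) × Z} (hz : z ∈ F.U)
    (ζ : (E →L[ℝ] E) × Z) :
    fderiv ℝ (F.τ k) z ζ =
      ⟪F.e k z, ζ.1 (F.Δ k z)⟫_ℝ + ⟪F.e k z, z.1 (fderiv ℝ (F.Δ k) z ζ)⟫_ℝ := by
  have hU := F.hU.mem_nhds hz
  have h1 : HasFDerivAt (fun w : (E →L[ℝ] E) × Z => w.1 (F.Δ k w))
      (z.1.comp (fderiv ℝ (F.Δ k) z) +
        (ContinuousLinearMap.fst ℝ (E →L[ℝ] E) Z).flip (F.Δ k z)) z :=
    hasFDerivAt_fst.clm_apply (dΔ hk hz).hasFDerivAt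
  have h2 : HasFDerivAt (fun w : (E →L[ℝ] E) × Z => F.τ k w • F.e k w)
      (F.τ k z • fderiv ℝ (F.e k) z + (fderiv ℝ (F.τ k) z).smulRight (F.e k z)) z :=
    (dτ hk hz).hasFDerivAt.smul (de hk.le hz).hasFDerivAt
  have h3 : (fun w : (E →L[ℝ] E) × Z => F.τ k w • F.e k w) =ᶠ[𝓝 z]
      fun w => w.1 (F.Δ k w) := by
    filter_upwards [hU] with w hw using (F.step k hk w hw).symm
  have h4 := (h1.congr_of_eventuallyEq h3).unique h2
  have h5 := congrArg (fun T : ((E →L[ℝ] E) × Z) →L[ℝ] E => ⟪F.e k z, T ζ⟫_ℝ) h4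
  simp only [_root_.add_apply, ContinuousLinearMap.comp_apply,
    ContinuousLinearMap.flip_apply, ContinuousLinearMap.coe_fst', _root_.smul_apply,
    ContinuousLinearMap.smulRight_apply, inner_add_right, inner_smul_right] at h5
  have h6 : ⟪F.e k z, fderiv ℝ (F.e k) z ζ⟫_ℝ = 0 := by
    have h7 : (fun w => ⟪F.e k w, F.e k w⟫_ℝ) =ᶠ[𝓝 z] fun _ => (1 : ℝ) := by
      filter_upwards [hU] with w hw using F.ee k hk.le w hw
    have h8 := h7.fderiv_eq (𝕜 := ℝ)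
    have h9 := congrArg (fun T : ((E →L[ℝ] E) × Z) →L[ℝ] ℝ => T ζ) h8
    rw [fderiv_inner_apply ℝ (de hk.le hz) (de hk.le hz)] at h9
    rw [real_inner_comm (F.e k z) (fderiv ℝ (F.e k) z ζ)] at h9
    simp at h9
    linarith
  rw [h6, F.ee k hk.le z hz] at h5
  linarith

/-- the first variation of the length -/
lemma S_fderiv {z : (E →L[ℝ] E) × Z} (hz : z ∈ F.U) (ζ : (E →L[ℝ] E) × Z) :
    fderiv ℝ (S F) z ζ = mp F ζ.1 z + G F ζ z := by
  have h1 : HasFDerivAt (S F) (∑ k ∈ Finset.range F.n, fderiv ℝ (F.τ k) z) z := by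
    unfold S
    exact HasFDerivAt.fun_sum fun k hk => (dτ (Finset.mem_range.1 hk) hz).hasFDerivAt
  rw [h1.fderiv, _root_.sum_apply]
  have h2 : ∀ k ∈ Finset.range F.n, fderiv ℝ (F.τ k) z ζ = ⟪F.e k z, ζ.1 (F.Δ k z)⟫_ℝ +
      (⟪F.e (k + 1) z, z.1 (fderiv ℝ (F.x (k + 1)) z ζ)⟫_ℝ -
        ⟪F.e k z, z.1 (fderiv ℝ (F.x k) z ζ)⟫_ℝ) := by
    intro k hk
    have hk' := Finset.mem_range.1 hk
    rw [tau_fderiv hk' hz, fderiv_Δ hk' hz, map_sub, inner_sub_right]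
    have h3 := F.refl k hk' z hz ζ
    rw [inner_sub_left] at h3
    linarith
  rw [Finset.sum_congr rfl h2, Finset.sum_add_distrib,
    Finset.sum_range_sub (fun k => ⟪F.e k z, z.1 (fderiv ℝ (F.x k) z ζ)⟫_ℝ) F.n]
  rfl

lemma dfx {k : ℕ} (hk : k ≤ F.n) {z : (E →L[ℝ] E) × Z} (hz : z ∈ F.U)
    (ζ : (E →L[ℝ] E) × Z) : DifferentiableAt ℝ (fun w => fderiv ℝ (F.x k) w ζ) z := by
  have h1 : ContDiffAt ℝ 1 (fderiv ℝ (F.x k)) z :=
    (F.cx k hk z hz).fderiv_right (by norm_num)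
  exact (h1.differentiableAt (by norm_num)).clm_apply (differentiableAt_const ζ)

lemma dG {z : (E →L[ℝ] E) × Z} (hz : z ∈ F.U) (ζ : (E →L[ℝ] E) × Z) :
    DifferentiableAt ℝ (G F ζ) z := by
  unfold G
  exact ((de le_rfl hz).inner ℝ (differentiableAt_fst.clm_apply (dfx le_rfl hz ζ))).sub
    ((de (Nat.zero_le _) hz).inner ℝ
      (differentiableAt_fst.clm_apply (dfx (Nat.zero_le _) hz ζ)))

lemma dmp {z : (E →L[ℝ] E) × Z} (hz : z ∈ F.U) (B : E →L[ℝ] E) :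
    DifferentiableAt ℝ (mp F B) z := by
  unfold mp
  refine DifferentiableAt.fun_sum fun k hk => ?_
  have hk' := Finset.mem_range.1 hk
  exact (de hk'.le hz).inner ℝ ((differentiableAt_const B).clm_apply (dΔ hk' hz))

lemma dm {z : (E →L[ℝ] E) × Z} (hz : z ∈ F.U) (C : E →L[ℝ] E) :
    DifferentiableAt ℝ (F.m C) z := by
  unfold Fam.m
  refine DifferentiableAt.fun_sum fun k hk => ?_
  have hk' := Finset.mem_range.1 hk
  exact ((dτ hk' hz).inv (F.τpos k hk' z hz).ne').mul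
    ((dΔ hk' hz).inner ℝ ((differentiableAt_const C).clm_apply (dΔ hk' hz)))

lemma G_add (ζ ζ' w : (E →L[ℝ] E) × Z) : G F (ζ + ζ') w = G F ζ w + G F ζ' w := by
  unfold G
  simp only [map_add, inner_add_right]
  ring

lemma G_smul (c : ℝ) (ζ w : (E →L[ℝ] E) × Z) : G F (c • ζ) w = c * G F ζ w := by
  unfold G
  simp only [map_smul, inner_smul_right]
  ring

/-- the second variation -/
lemma mp_const {z : (E →L[ℝ] E) × Z} (hz : z ∈ F.U) (hG : ∀ ζ, fderiv ℝ (G F ζ) z = 0)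
    (B : E →L[ℝ] E) (η : Z) : fderiv ℝ (mp F B) z (0, η) = 0 := by
  have hU := F.hU.mem_nhds hz
  have hS : ContDiffAt ℝ 2 (S F) z := by
    unfold S
    exact ContDiffAt.sum fun k hk => F.cτ k (Finset.mem_range.1 hk) z hz
  have hsymm : IsSymmSndFDerivAt ℝ (S F) z := hS.isSymmSndFDerivAt (by simp)
  have hS1 : DifferentiableAt ℝ (fderiv ℝ (S F)) z :=
    (hS.fderiv_right (m := 1) (by norm_num)).differentiableAt (by norm_num)
  have key : ∀ ζ ζ' : (E →L[ℝ] E) × Z,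
      fderiv ℝ (fderiv ℝ (S F)) z ζ ζ' = fderiv ℝ (mp F ζ'.1) z ζ := by
    intro ζ ζ'
    have h1 : (fun w => fderiv ℝ (S F) w ζ') =ᶠ[𝓝 z] fun w => mp F ζ'.1 w + G F ζ' w := by
      filter_upwards [hU] with w hw using S_fderiv hw ζ'
    have h2 := h1.fderiv_eq (𝕜 := ℝ)
    rw [fderiv_fun_add (dmp hz _) (dG hz _), hG, add_zero] at h2
    have h3 : HasFDerivAt (fun w => fderiv ℝ (S F) w ζ')
        ((fderiv ℝ (fderiv ℝ (S F)) z).flip ζ') z := by
      have h4 := hS1.hasFDerivAt.clm_apply (hasFDerivAt_const ζ' z)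
      simpa using h4
    rw [h3.fderiv] at h2
    rw [← h2]; rfl
  have h1 := hsymm.eq (0, η) (B, 0)
  rw [key, key] at h1
  rw [h1]
  have h2 : mp F ((0 : E →L[ℝ] E), η).1 = fun _ => (0 : ℝ) := by
    funext w
    unfold mp
    simp
  rw [h2]
  simp

variable [CompleteSpace E]

/-- comparison of the two forms along the directions which fix `T` -/
lemma m_eq {z : (E →L[ℝ] E) × Z} (hz : z ∈ F.U)
    (h : ∀ B : E →L[ℝ] E, ∀ η : Z, fderiv ℝ (mp F B) z (0, η) = 0) (C : E →L[ℝ] E) (η : Z) :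
    fderiv ℝ (F.m C) z (0, η) = 0 := by
  obtain ⟨u, hu⟩ := F.inv z hz
  set T' : E →L[ℝ] E := ((u⁻¹ : (E →L[ℝ] E)ˣ) : E →L[ℝ] E) with hT'
  have hTT : ∀ v : E, T' (z.1 v) = v := by
    intro v
    have h1 : T' * z.1 = 1 := by rw [hT', ← hu]; exact u.inv_mul
    calc T' (z.1 v) = (T' * z.1) v := rfl
      _ = v := by rw [h1]; rfl
  set B : E →L[ℝ] E := (ContinuousLinearMap.adjoint T').comp C with hB
  have h1 : HasLineDerivAt ℝ (F.m C) (fderiv ℝ (F.m C) z (0, η)) z (0, η) :=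
    (dm hz C).hasFDerivAt.hasLineDerivAt _
  have h2 : HasLineDerivAt ℝ (mp F B) (fderiv ℝ (mp F B) z (0, η)) z (0, η) :=
    (dmp hz B).hasFDerivAt.hasLineDerivAt _
  have hcont : Tendsto (fun s : ℝ => z + s • ((0 : E →L[ℝ] E), η)) (𝓝 0) (𝓝 z) := by
    have h3 : Continuous fun s : ℝ => z + s • ((0 : E →L[ℝ] E), η) := by fun_prop
    have h4 := h3.tendsto 0
    simpa using h4
  have h3 : (fun s : ℝ => F.m C (z + s • ((0 : E →L[ℝ] E), η))) =ᶠ[𝓝 0]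
      fun s : ℝ => mp F B (z + s • ((0 : E →L[ℝ] E), η)) := by
    filter_upwards [hcont.eventually (F.hU.mem_nhds hz)] with s hs
    set w := z + s • ((0 : E →L[ℝ] E), η) with hw
    have hw1 : w.1 = z.1 := by rw [hw]; simp
    unfold Fam.m mp
    refine Finset.sum_congr rfl fun k hk => ?_
    have hk' := Finset.mem_range.1 hk
    have h4 := F.step k hk' w hs
    have h5 := (F.τpos k hk' w hs).ne'
    have h6 : F.e k w = (F.τ k w)⁻¹ • z.1 (F.Δ k w) := by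
      have h7 : z.1 (F.Δ k w) = F.τ k w • F.e k w := by rw [← hw1]; exact h4
      rw [h7, smul_smul, inv_mul_cancel₀ h5, one_smul]
    rw [h6, inner_smul_left]
    have h8 : ⟪z.1 (F.Δ k w), B (F.Δ k w)⟫_ℝ = ⟪F.Δ k w, C (F.Δ k w)⟫_ℝ := by
      rw [hB, ContinuousLinearMap.comp_apply, ContinuousLinearMap.adjoint_inner_right, hTT]
    rw [h8]
    simp
  have h4 : HasDerivAt (fun s : ℝ => F.m C (z + s • ((0 : E →L[ℝ] E), η)))
      (fderiv ℝ (mp F B) z (0, η)) 0 := by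
    have h5 : HasDerivAt (fun s : ℝ => mp F B (z + s • ((0 : E →L[ℝ] E), η)))
      (fderiv ℝ (mp F B) z (0, η)) 0 := h2
    exact h5.congr_of_eventuallyEq h3
  have h5 : HasDerivAt (fun s : ℝ => F.m C (z + s • ((0 : E →L[ℝ] E), η)))
      (fderiv ℝ (F.m C) z (0, η)) 0 := h1
  rw [h5.unique h4]
  exact h B η

end

theorem mconst : Pool.Agent.TH597.IV.MCONST := by
  intro E Z _ _ _ _ _ _ _ _ μ _ F
  have hUm : MeasurableSet F.U := F.hU.measurableSet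
  have hAm : MeasurableSet F.A := by
    have m1 : MeasurableSet (F.U ∩ {z | (fun z => F.x F.n z - F.x 0 z) z = 0}) :=
      Pool.Agent.H721R2.Quart.A1_meas hUm
        (fun z hz => (dx le_rfl hz).sub (dx (Nat.zero_le _) hz))
    have m2 : MeasurableSet ((F.U ∩ {z | (fun z => F.x F.n z - F.x 0 z) z = 0}) ∩
        {z | (fun z => F.e F.n z - F.e 0 z) z = 0}) :=
      Pool.Agent.H721R2.Quart.A1_meas m1
        (fun z hz => (de le_rfl hz.1).sub (de (Nat.zero_le _) hz.1))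
    convert m2 using 1
    ext z
    simp only [Fam.A, mem_ofPred_eq, mem_inter_iff, sub_eq_zero, and_assoc]
  obtain ⟨B1, s1, m1, n1, g1⟩ := Pool.Agent.H721R2.Quart.ae_zero μ hAm
    (f := fun z => F.x F.n z - F.x 0 z)
    (fun z hz => (dx le_rfl hz.1).sub (dx (Nat.zero_le _) hz.1))
  have hG0 : ∀ z ∈ B1, ∀ ζ, G F ζ z = 0 := by
    intro z hz ζ
    have hzA := s1 hz
    have h1 : F.x F.n z - F.x 0 z = 0 := sub_eq_zero.2 hzA.2.1
    have h2 := g1 z hz h1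
    have h3 : HasFDerivAt (fun z => F.x F.n z - F.x 0 z)
        (fderiv ℝ (F.x F.n) z - fderiv ℝ (F.x 0) z) z :=
      (dx le_rfl hzA.1).hasFDerivAt.sub (dx (Nat.zero_le _) hzA.1).hasFDerivAt
    rw [h3.fderiv, sub_eq_zero] at h2
    unfold G
    rw [h2, hzA.2.2, sub_self]
  set b := Module.finBasis ℝ ((E →L[ℝ] E) × Z) with hb
  have hex : ∀ i, ∃ Bi ⊆ B1, MeasurableSet Bi ∧ μ (B1 \ Bi) = 0 ∧
      ∀ z ∈ Bi, G F (b i) z = 0 → fderiv ℝ (G F (b i)) z = 0 := fun i =>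
    Pool.Agent.H721R2.Quart.ae_zero μ m1 (f := G F (b i)) (fun z hz => dG (s1 hz).1 _)
  choose Bi si mi ni gi using hex
  refine ⟨B1 ∩ ⋂ i, Bi i, fun z hz => s1 hz.1, m1.inter (MeasurableSet.iInter mi), ?_, ?_⟩
  · have h : F.A \ (B1 ∩ ⋂ i, Bi i) ⊆ (F.A \ B1) ∪ ⋃ i, (B1 \ Bi i) := by
      rintro z ⟨hzA, hz⟩
      by_cases hz1 : z ∈ B1
      · right
        rw [mem_iUnion]
        by_contra hcon
        push Not at hcon
        apply hz
        refine ⟨hz1, mem_iInter.2 fun i => ?_⟩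
        by_contra hzi
        exact hcon i ⟨hz1, hzi⟩
      · left; exact ⟨hzA, hz1⟩
    exact measure_mono_null h (measure_union_null n1 (measure_iUnion_null ni))
  · rintro z ⟨hz1, hzi⟩ C η
    have hzU := (s1 hz1).1
    have hb0 : ∀ i, fderiv ℝ (G F (b i)) z = 0 := fun i =>
      gi i z (mem_iInter.1 hzi i) (hG0 z hz1 _)
    set Φ : ((E →L[ℝ] E) × Z) →ₗ[ℝ] (((E →L[ℝ] E) × Z) →L[ℝ] ℝ) :=
      { toFun := fun ζ => fderiv ℝ (G F ζ) z
        map_add' := fun ζ ζ' => by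
          have h1 : G F (ζ + ζ') = fun w => G F ζ w + G F ζ' w := funext fun w => G_add _ _ _
          rw [h1, fderiv_fun_add (dG hzU _) (dG hzU _)]
        map_smul' := fun c ζ => by
          have h1 : G F (c • ζ) = fun w => c * G F ζ w := funext fun w => G_smul _ _ _
          rw [h1, fderiv_const_mul (dG hzU _)]; rfl } with hΦ
    have hΦ0 : Φ = 0 := b.ext fun i => by rw [LinearMap.zero_apply]; exact hb0 i
    have hG : ∀ ζ, fderiv ℝ (G F ζ) z = 0 := fun ζ => by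
      have h1 : Φ ζ = 0 := by rw [hΦ0]; rfl
      exact h1
    exact m_eq hzU (mp_const hzU hG) C η

end Pool.Agent.TH857.IV_MCONST
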