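import Pool.Agent.TH614.HS.Defs

set_option autoImplicit false

/-!
Job 3568 (HS-HAT): root datum of the dual line.
-/

namespace Pool.Agent.TH857.J3568

open Pool.Agent.TH614.HS

theorem HAT : S_HAT := by
  intro L _ th x0 x1 x2 y0 y1 y2 s mu eta h2 hth hPL hs hRD
  obtain ⟨hx0, hx1, hx2, hy0, hy1, hy2, hpl⟩ := hPL
  -- the three special points
  have h_i := hRD 1 (x1 / x0) (x2 / x0) 0 ⟨by field_simp; ring, by field_simp; ring,
    by field_simp; ring⟩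
  have h_ii := hRD 0 (y2 / x0) (-y1 / x0) 1 ⟨by
      field_simp; linear_combination -hpl, by field_simp; ring, by field_simp; ring⟩
  have h_iii := hRD 1 ((x1 + y2) / x0) ((x2 - y1) / x0) 1 ⟨by
      field_simp; linear_combination -hpl, by field_simp; ring, by field_simp; ring⟩
  unfold Dq at h_i h_ii h_iii
  have A : x1 * x2 = s ^ 3 * x0 ^ 2 * (mu ^ 2 - 1) := by
    field_simp at h_i
    linear_combination h_i
  have B : y1 * y2 = s * x0 ^ 2 * (1 - eta ^ 2) := by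
    field_simp at h_ii
    linear_combination -h_ii
  have C : x2 * y2 - x1 * y1 = s ^ 2 * x0 ^ 2 * (2 * mu * eta + th) := by
    field_simp at h_iii
    linear_combination h_iii - A + B
  have E0 : x0 ^ 2 * y0 ^ 2 = x0 ^ 2 * (s ^ 4 * x0 ^ 2 * (4 * (mu ^ 2 + th * mu * eta + eta ^ 2) - 1)) := by
    have e1 : x0 ^ 2 * y0 ^ 2 = (x2 * y2 - x1 * y1) ^ 2 + 4 * (x1 * x2) * (y1 * y2) := by
      have : x0 * y0 = -(x1 * y1 + x2 * y2) := by linear_combination hpl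
      calc x0 ^ 2 * y0 ^ 2 = (x0 * y0) ^ 2 := by ring
        _ = _ := by rw [this]; ring
    rw [e1, A, B, C]
    linear_combination (s ^ 4 * x0 ^ 4) * hth
  have E : y0 ^ 2 = s ^ 4 * x0 ^ 2 * (4 * (mu ^ 2 + th * mu * eta + eta ^ 2) - 1) :=
    mul_left_cancel₀ (pow_ne_zero 2 hx0) E0
  intro R0 R1 R2 Z hR
  obtain ⟨_, hR2, hR1⟩ := hR
  have r1 : y0 * R1 = y1 * R0 + x2 * Z := by linear_combination hR1
  have r2 : y0 * R2 = y2 * R0 - x1 * Z := by linear_combination -hR2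
  have K : y0 ^ 2 * (s ^ 2 * Z ^ 2 + th * s * R0 * Z + R0 ^ 2) + s ^ 3 * ((y0 * R1) * (y0 * R2)) =
      ((2 * mu + th * eta) * s ^ 2 * x0 * R0 + (th * mu + 2 * eta) * s ^ 3 * x0 * Z) ^ 2 := by
    rw [r1, r2]
    have e2 : (y1 * R0 + x2 * Z) * (y2 * R0 - x1 * Z) =
        (y1 * y2) * R0 ^ 2 + (x2 * y2 - x1 * y1) * (R0 * Z) - (x1 * x2) * Z ^ 2 := by ring
    rw [e2, A, B, C, E]
    linear_combination (-(s ^ 4 * x0 ^ 2 * (mu * s * Z + eta * R0) ^ 2) +
      4 * s ^ 5 * x0 ^ 2 * mu * eta * R0 * Z - 0) * hth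
  unfold Dq
  field_simp
  linear_combination K

end Pool.Agent.TH857.J3568
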