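import Pool.Agent.TH614.HS.Base

set_option autoImplicit false

/-!
Job 3864 (HS-EPS): the epsilon sign of a circle root.
-/

namespace Pool.Agent.TH857.J3864

open Pool.Agent.TH614.HS

/-- the `q^3`-power of a root datum of the line is a root datum of the dual line -/
theorem rd_pow {L : Type} [Field L] [IsAlgClosed L] (D : HD L) {x s mu eta : L} (hx : D.isL x)
    (hs : D.circ s) (h : D.RD x s mu eta) :
    RDa (-D.th) (x ^ (D.q ^ 3)) (x ^ (D.q ^ 5)) (x ^ D.q) x (x ^ (D.q ^ 2)) (x ^ (D.q ^ 4)) s⁻¹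
      (mu ^ (D.q ^ 3)) (eta ^ (D.q ^ 3)) := by
  intro R0 R1 R2 Z hR
  have hx6 : x ^ (D.q ^ 6) = x := hx.2.1
  obtain ⟨P0, h0⟩ := D.surjn 3 R0
  obtain ⟨P1, h1⟩ := D.surjn 3 R1
  obtain ⟨P2, h2⟩ := D.surjn 3 R2
  obtain ⟨Y, h3⟩ := D.surjn 3 Z
  have hOn : OnL x (x ^ (D.q ^ 2)) (x ^ (D.q ^ 4)) (x ^ (D.q ^ 3)) (x ^ (D.q ^ 5)) (x ^ D.q)
      P0 P1 P2 Y := by
    obtain ⟨k0, k1, k2⟩ := hR
    refine ⟨D.injn 3 ?_, D.injn 3 ?_, D.injn 3 ?_⟩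
    · rw [D.subn, mul_pow, mul_pow, mul_pow, D.pp, D.pp, D.pp, h1, h2, h3]
      norm_num
      rw [D.p7 hx6, hx6]
      exact k0
    · rw [D.subn, mul_pow, mul_pow, mul_pow, D.pp, D.pp, h0, h2, h3]
      norm_num
      rw [D.p7 hx6, D.p8 hx6]
      exact k1
    · rw [D.subn, mul_pow, mul_pow, mul_pow, D.pp, D.qp, h0, h1, h3]
      norm_num
      exact k2
  have hD := h.2 P0 P1 P2 Y hOn
  have hDq : (Dq D.th s P0 P1 P2 Y) ^ (D.q ^ 3) = Dq (-D.th) s⁻¹ R0 R1 R2 Z := by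
    rw [← h0, ← h1, ← h2, ← h3, ← hs.inv, ← D.th_q3]
    show D.frn 3 (Dq D.th s P0 P1 P2 Y) = Dq (D.frn 3 D.th) (D.frn 3 s) (D.frn 3 P0) (D.frn 3 P1)
      (D.frn 3 P2) (D.frn 3 Y)
    unfold Dq
    simp only [map_add, map_sub, map_mul, map_pow, map_div₀]
  have hsq : ((mu * s * P0 + eta * Y) ^ 2) ^ (D.q ^ 3) =
      (mu ^ (D.q ^ 3) * s⁻¹ * R0 + eta ^ (D.q ^ 3) * Z) ^ 2 := by
    rw [← h0, ← h3, ← hs.inv]
    show D.frn 3 ((mu * s * P0 + eta * Y) ^ 2) =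
      (D.frn 3 mu * D.frn 3 s * D.frn 3 P0 + D.frn 3 eta * D.frn 3 Y) ^ 2
    simp only [map_add, map_mul, map_pow]
  rw [← hDq, ← hsq, hD]

theorem EPS : S_HAT → S_EPS := by
  intro hHAT L _ _ D x s mu eta hx hs hRD
  have h2 : (2 : L) ≠ 0 := D.two_ne
  have hs0 : s ≠ 0 := hs.ne
  obtain ⟨A, hA⟩ : ∃ A, A = mu ^ (D.q ^ 3) := ⟨_, rfl⟩
  obtain ⟨B, hB⟩ : ∃ B, B = eta ^ (D.q ^ 3) := ⟨_, rfl⟩
  obtain ⟨A', hA'⟩ : ∃ A', A' = (2 * mu + D.th * eta) * (s ^ 2 * x / x ^ (D.q ^ 3)) := ⟨_, rfl⟩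
  obtain ⟨B', hB'⟩ : ∃ B', B' = (D.th * mu + 2 * eta) * (s ^ 2 * x / x ^ (D.q ^ 3)) := ⟨_, rfl⟩
  have r1 := rd_pow D hx hs hRD
  have r2 := hHAT L D.th x (x ^ (D.q ^ 2)) (x ^ (D.q ^ 4)) (x ^ (D.q ^ 3)) (x ^ (D.q ^ 5)) (x ^ D.q)
    s mu eta h2 D.th2 hx.PL hs0 hRD.2
  rw [← hA, ← hB] at r1
  rw [← hA', ← hB'] at r2
  obtain ⟨p0, p1, p2, p3, p4, p5, p6⟩ := hx.PL
  have hPL' : PL (x ^ (D.q ^ 3)) (x ^ (D.q ^ 5)) (x ^ D.q) x (x ^ (D.q ^ 2)) (x ^ (D.q ^ 4)) :=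
    ⟨p3, p4, p5, p0, p1, p2, by linear_combination p6⟩
  have key : ∀ R0 Z : L, (A * s⁻¹ * R0 + B * Z) ^ 2 = (A' * s⁻¹ * R0 + B' * Z) ^ 2 := by
    intro R0 Z
    have h3 := OnL.param hPL' R0 Z
    exact (r1 _ _ _ _ h3).symm.trans (r2 _ _ _ _ h3)
  have e1 : A ^ 2 = A' ^ 2 := by
    have h3 := key s 0
    have h4 : s⁻¹ * s = 1 := inv_mul_cancel₀ hs0
    calc A ^ 2 = (A * s⁻¹ * s + B * 0) ^ 2 := by rw [mul_assoc, h4]; ring
      _ = _ := h3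
      _ = A' ^ 2 := by rw [mul_assoc, h4]; ring
  have e2 : B ^ 2 = B' ^ 2 := by
    have h3 := key 0 1
    linear_combination h3
  have e3 : A * B = A' * B' := by
    have h3 := key s 1
    have h4 : s⁻¹ * s = 1 := inv_mul_cancel₀ hs0
    rw [mul_assoc, mul_assoc, h4] at h3
    have h5 : 2 * (A * B) = 2 * (A' * B') := by linear_combination h3 - e1 - e2
    exact mul_left_cancel₀ h2 h5
  have main : ∃ ep : L, (ep = 1 ∨ ep = -1) ∧ A = ep * A' ∧ B = ep * B' := by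
    rcases sq_eq_sq_iff_eq_or_eq_neg.mp e1 with h | h
    · by_cases h0 : A = 0
      · have h0' : A' = 0 := by rw [← h]; exact h0
        rcases sq_eq_sq_iff_eq_or_eq_neg.mp e2 with h6 | h6
        · exact ⟨1, Or.inl rfl, by rw [h0, h0']; ring, by rw [h6]; ring⟩
        · exact ⟨-1, Or.inr rfl, by rw [h0, h0']; ring, by rw [h6]; ring⟩
      · refine ⟨1, Or.inl rfl, by rw [h]; ring, ?_⟩
        rw [← h] at e3
        rw [mul_left_cancel₀ h0 e3]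
        ring
    · by_cases h0 : A = 0
      · have h0' : A' = 0 := by
          have : A' = -A := by rw [h]; ring
          rw [this, h0, neg_zero]
        rcases sq_eq_sq_iff_eq_or_eq_neg.mp e2 with h6 | h6
        · exact ⟨1, Or.inl rfl, by rw [h0, h0']; ring, by rw [h6]; ring⟩
        · exact ⟨-1, Or.inr rfl, by rw [h0, h0']; ring, by rw [h6]; ring⟩
      · refine ⟨-1, Or.inr rfl, by rw [h]; ring, ?_⟩
        have h7 : A' = -A := by rw [h]; ring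
        rw [h7] at e3
        have h8 : A * B = A * (-B') := by rw [e3]; ring
        rw [mul_left_cancel₀ h0 h8]
        ring
  obtain ⟨ep, hep, h3, h4⟩ := main
  refine ⟨ep, hep, ?_, ?_⟩
  · rw [← hA, h3, hA']
  · rw [← hB, h4, hB']

end Pool.Agent.TH857.J3864
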